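import Pool.Agent.H45Sturm.Ivt

/-! The circle, invariant measures, and the transport inequality. -/

namespace Pool.Agent.H45Sturm

open Real Set Filter MeasureTheory Topology

noncomputable section

/-- The unit circle. -/
abbrev S1 : Type := Metric.sphere (0 : ℂ) 1

/-- The point with coordinate `x` in `ℝ / ℤ`. -/
def point (x : ℝ) : S1 :=
  ⟨Complex.exp (2 * π * x * Complex.I), by
    rw [mem_sphere_zero_iff_norm]
    have : (2 * π * x * Complex.I : ℂ) = ((2 * π * x : ℝ) : ℂ) * Complex.I := by push_cast; ring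
    rw [this, Complex.norm_exp_ofReal_mul_I]⟩

/-- The graph of the multivalued map. -/
def graph (p q : ℕ) : Set (S1 × S1) := {z | (z.2 : ℂ) ^ p = (z.1 : ℂ) ^ q}

/-- Invariant probability measures. -/
def Invariant (p q : ℕ) (μ : Measure S1) : Prop :=
  IsProbabilityMeasure μ ∧ ∃ m : Measure (graph p q), IsProbabilityMeasure m ∧
    m.map (fun z => z.1.1) = μ ∧ m.map (fun z => z.1.2) = μ

/-- The barycentre. -/
def barycentre (μ : Measure S1) : ℂ := ∫ z, (z : ℂ) ∂μ

/-- The set of barycentres. -/
def barySet (p q : ℕ) : Set ℂ := {b | ∃ μ, Invariant p q μ ∧ barycentre μ = b}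

/-- The closed arc of length `1/q` starting at `a`. -/
def arc (q : ℕ) (a : ℝ) : Set S1 := point '' Icc a (a + 1 / q)

/-- Sturmian measures. -/
def Sturmian (q : ℕ) (μ : Measure S1) : Prop := ∃ a : ℝ, μ.support ⊆ arc q a

/-- The coordinate of a point. -/
def coord (z : S1) : ℝ := Complex.arg z / (2 * π)

lemma point_coord (z : S1) : point (coord z) = z := by
  apply Subtype.ext
  unfold point coord
  have hz : ‖(z : ℂ)‖ = 1 := mem_sphere_zero_iff_norm.1 z.2
  have := Complex.norm_mul_exp_arg_mul_I (z : ℂ)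
  rw [hz] at this
  simp only [Complex.ofReal_one, one_mul] at this
  have hpi : (π : ℂ) ≠ 0 := by exact_mod_cast pi_ne_zero
  have e : (2 * π * ((Complex.arg z / (2 * π) : ℝ) : ℂ) * Complex.I : ℂ) =
      (Complex.arg z : ℂ) * Complex.I := by
    push_cast
    field_simp
  simp only
  rw [e, this]

lemma measurable_coord : Measurable coord :=
  (Complex.measurable_arg.comp measurable_subtype_coe).div_const _

lemma point_continuous : Continuous point := by
  unfold point
  fun_prop

lemma point_add_int (x : ℝ) (n : ℤ) : point (x + n) = point x := by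
  apply Subtype.ext
  unfold point
  simp only
  rw [Complex.exp_eq_exp_iff_exists_int]
  refine ⟨n, ?_⟩
  push_cast
  ring

lemma point_eq_iff {x y : ℝ} : point x = point y ↔ ∃ n : ℤ, x = y + n := by
  constructor
  · intro h
    have h2 : Complex.exp (2 * π * x * Complex.I) = Complex.exp (2 * π * y * Complex.I) :=
      congrArg Subtype.val h
    rw [Complex.exp_eq_exp_iff_exists_int] at h2
    obtain ⟨n, hn⟩ := h2
    refine ⟨n, ?_⟩
    have hpi : (2 * π * Complex.I : ℂ) ≠ 0 := by
      have : (π : ℂ) ≠ 0 := by exact_mod_cast pi_ne_zero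
      simp [this, Complex.I_ne_zero]
    have : (x : ℂ) = y + n := by
      have e : (2 * π * Complex.I : ℂ) * x = (2 * π * Complex.I) * (y + n) := by
        linear_combination hn
      exact mul_left_cancel₀ hpi e
    exact_mod_cast this
  · rintro ⟨n, rfl⟩
    exact point_add_int y n

lemma graph_iff {p q : ℕ} {x y : ℝ} :
    (point x, point y) ∈ graph p q ↔ ∃ n : ℤ, (q : ℝ) * x - p * y = n := by
  unfold graph point
  simp only [Set.mem_ofPred_eq]
  rw [← Complex.exp_nat_mul, ← Complex.exp_nat_mul, Complex.exp_eq_exp_iff_exists_int]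
  have hpi : (2 * π * Complex.I : ℂ) ≠ 0 := by
    have : (π : ℂ) ≠ 0 := by exact_mod_cast pi_ne_zero
    simp [this, Complex.I_ne_zero]
  constructor
  · rintro ⟨n, hn⟩
    refine ⟨-n, ?_⟩
    have : ((q : ℂ) * x - p * y) = ((-n : ℤ) : ℂ) := by
      have e : (2 * π * Complex.I : ℂ) * (q * x - p * y) = (2 * π * Complex.I) * ((-n : ℤ) : ℂ) := by
        push_cast
        linear_combination -hn
      exact mul_left_cancel₀ hpi e
    exact_mod_cast this
  · rintro ⟨n, hn⟩
    refine ⟨-n, ?_⟩
    have : ((q : ℂ) * x - p * y) = (n : ℂ) := by exact_mod_cast hn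
    push_cast
    linear_combination -(2 * π * Complex.I) * this

/-- The linear functional in direction `θ`. -/
def Lin (θ : ℝ) (z : ℂ) : ℝ := (z * Complex.exp (-(2 * π * θ * Complex.I))).re

lemma Lin_point (θ x : ℝ) : Lin θ (point x) = ff θ x := by
  unfold Lin point ff
  simp only
  rw [← Complex.exp_add]
  have : (2 * π * x * Complex.I + -(2 * π * θ * Complex.I) : ℂ) =
      ((2 * π * (x - θ) : ℝ) : ℂ) * Complex.I := by push_cast; ring
  rw [this, Complex.exp_ofReal_mul_I_re]

lemma Lin_add (θ : ℝ) (z w : ℂ) : Lin θ (z + w) = Lin θ z + Lin θ w := by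
  unfold Lin; rw [add_mul, Complex.add_re]

lemma Lin_smul (θ : ℝ) (t : ℝ) (z : ℂ) : Lin θ (t • z) = t * Lin θ z := by
  unfold Lin
  rw [smul_mul_assoc, Complex.real_smul, Complex.re_ofReal_mul]

/-- The functional as a continuous linear map. -/
def LinC (θ : ℝ) : ℂ →L[ℝ] ℝ :=
  LinearMap.toContinuousLinearMap
    { toFun := Lin θ
      map_add' := Lin_add θ
      map_smul' := fun t z => Lin_smul θ t z }

lemma LinC_apply (θ : ℝ) (z : ℂ) : LinC θ z = Lin θ z := rfl

lemma integrable_coe (μ : Measure S1) [IsFiniteMeasure μ] : Integrable (fun z : S1 => (z : ℂ)) μ := by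
  refine Integrable.of_bound (C := 1) ?_ ?_
  · exact continuous_subtype_val.aestronglyMeasurable
  · exact Eventually.of_forall fun z => (mem_sphere_zero_iff_norm.1 z.2).le

lemma Lin_bary (θ : ℝ) (μ : Measure S1) [IsFiniteMeasure μ] :
    Lin θ (barycentre μ) = ∫ z : S1, Lin θ (z : ℂ) ∂μ := by
  unfold barycentre
  have := (LinC θ).integral_comp_comm (integrable_coe μ)
  simp only [LinC_apply] at this
  exact this.symm

section ineq

variable {p q : ℕ} {a θ : ℝ} (D : Data p q a (ff θ) (hh θ) (2 * π) (4 * π ^ 2))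
  (h0 : czero p q a (hh θ) = 0)

/-- The optimal value. -/
def betaVal (p q : ℕ) (a θ : ℝ) : ℝ := ff θ a + PP p q a θ a - PP p q a θ ((q : ℝ) * a / p)

/-- The Hamiltonian. -/
def Hf (p q : ℕ) (a θ x : ℝ) : ℝ := ff θ x + PP p q a θ x

include D h0

lemma Hf_phi (y : ℝ) : Hf p q a θ (phi p q a y) = PP p q a θ y + betaVal p q a θ := by
  have := D.psi_fun h0 y
  unfold Hf betaVal
  have e : PP p q a θ y = psi p q a (hh θ) y := rfl
  have e2 : PP p q a θ (phi p q a y) = psi p q a (hh θ) (phi p q a y) := rfl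
  linarith

lemma Hf_add_int (x : ℝ) (n : ℤ) : Hf p q a θ (x + n) = Hf p q a θ x := by
  have hper : Function.Periodic (Hf p q a θ) 1 := by
    intro x
    unfold Hf
    have e1 : PP p q a θ (x + 1) = PP p q a θ x := D.psi_add_one h0 x
    rw [ff_per, e1]
  have := hper.int_mul n x
  rwa [mul_one] at this

lemma Hf_end : Hf p q a θ (a + 1 / q) = Hf p q a θ a := by
  have := D.czero_eq
  rw [h0] at this
  unfold Hf
  linarith

lemma Hf_le (hb : |bb q a θ| ≤ bmax q) {x y : ℝ} (hxy : ∃ n : ℤ, (q : ℝ) * x - p * y = n) :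
    Hf p q a θ x ≤ PP p q a θ y + betaVal p q a θ ∧
      (Hf p q a θ x = PP p q a θ y + betaVal p q a θ → point x ∈ arc q a) := by
  rw [← Hf_phi D h0 y]
  have hq := D.hq
  have hq' := D.hq'
  obtain ⟨n, hn⟩ := hxy
  set u : ℝ := phi p q a y with hu
  have hmem : u ∈ Ico a (a + 1 / q) := phi_mem a hq (p := p) y
  have hint := phi_int a hq (p := p) y
  rw [← hu] at hint
  set j : ℤ := n + ⌊(p : ℝ) * y - q * a⌋ with hj
  have hx : x = u + (j : ℝ) / q := by
    have : (q : ℝ) * x = q * u + j := by
      rw [hj]; push_cast; linarith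
    field_simp
    linarith
  have hqz : (q : ℤ) ≠ 0 := by exact_mod_cast hq.ne'
  set r : ℕ := (j % (q : ℤ)).toNat with hr
  have hr0 : 0 ≤ j % (q : ℤ) := Int.emod_nonneg _ hqz
  have hrq : r < q := by
    have := Int.emod_lt_of_pos j (show (0 : ℤ) < q by exact_mod_cast hq)
    omega
  have hrz : (r : ℤ) = j % q := Int.toNat_of_nonneg hr0
  have hjr : (j : ℝ) = r + q * ((j / (q : ℤ) : ℤ) : ℝ) := by
    have := Int.emod_add_mul_ediv j (q : ℤ)
    rw [← hrz] at this
    have h2 : (j : ℤ) = (r : ℤ) + q * (j / q) := this.symm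
    exact_mod_cast h2
  have hx2 : x = u + (r : ℝ) / q + ((j / (q : ℤ) : ℤ) : ℝ) := by
    rw [hx, hjr]
    field_simp
    ring
  have hHx : Hf p q a θ x = Hf p q a θ (u + (r : ℝ) / q) := by
    rw [hx2, Hf_add_int D h0]
  have hpx : point x = point (u + (r : ℝ) / q) := by
    rw [hx2, point_add_int]
  rw [hHx, hpx]
  have hs0 : 0 ≤ u - a := by linarith [hmem.1]
  have hs1 : u - a < 1 / q := by linarith [hmem.2]
  rcases Nat.eq_zero_or_pos r with h | h
  · rw [h]
    simp only [Nat.cast_zero, zero_div, add_zero]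
    exact ⟨le_rfl, fun _ => ⟨u, ⟨hmem.1, hmem.2.le⟩, rfl⟩⟩
  · rcases Nat.lt_or_ge q (2 * r) with h2 | h2
    · -- backward
      have hk : (r : ℝ) / q = -(((q - r : ℕ) : ℝ) / q) + ((1 : ℤ) : ℝ) := by
        rw [Nat.cast_sub hrq.le]
        push_cast
        field_simp
        ring
      have h3 : Hf p q a θ (u + (r : ℝ) / q) = Hf p q a θ (u - ((q - r : ℕ) : ℝ) / q) := by
        rw [hk, ← add_assoc, Hf_add_int D h0, ← sub_eq_add_neg]
      have hs : a + 1 / q - (a + 1 / q - u) = u := by ring
      have := bwd_lt D h0 hb (s := a + 1 / q - u) (by linarith [hmem.2]) (by linarith)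
        (k := q - r) (by omega) (by omega) (fun _ => by linarith [hmem.2])
        (fun h => by exfalso; omega)
      rw [hs] at this
      unfold Hf at h3 ⊢
      rw [h3]
      exact ⟨this.le, fun h => absurd h this.ne⟩
    · -- forward
      rcases eq_or_lt_of_le hs0 with hs | hs
      · -- u = a
        have hua : u = a := by linarith
        rw [hua]
        rcases Nat.lt_or_ge 1 r with h3 | h3
        · have := fwd_lt D h0 hb (s := 0) le_rfl (by positivity) (k := r) (by omega) h2
            (fun h => by exfalso; omega) (fun _ => by positivity)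
          rw [add_zero] at this
          exact ⟨this.le, fun h => absurd h this.ne⟩
        · have hr1 : r = 1 := by omega
          rw [hr1]
          push_cast
          rw [Hf_end D h0]
          exact ⟨le_rfl, fun _ => ⟨a + 1 / q, ⟨by
            have : (0 : ℝ) < 1 / q := by positivity
            linarith, le_rfl⟩, rfl⟩⟩
      · have := fwd_lt D h0 hb (s := u - a) hs0 hs1.le (k := r) (by omega) h2
            (fun _ => hs) (fun _ => hs1)
        rw [show a + (u - a) = u by ring] at this
        exact ⟨this.le, fun h => absurd h this.ne⟩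

lemma Hf_eq_of_arc {x y : ℝ} (hx : x ∈ Icc a (a + 1 / q))
    (hxy : ∃ n : ℤ, (q : ℝ) * x - p * y = n) :
    Hf p q a θ x = PP p q a θ y + betaVal p q a θ := by
  rw [← Hf_phi D h0 y]
  have hq := D.hq
  have hq' := D.hq'
  obtain ⟨n, hn⟩ := hxy
  set u : ℝ := phi p q a y with hu
  have hmem : u ∈ Ico a (a + 1 / q) := phi_mem a hq (p := p) y
  have hint := phi_int a hq (p := p) y
  rw [← hu] at hint
  set j : ℤ := n + ⌊(p : ℝ) * y - q * a⌋ with hj
  have hqx : (q : ℝ) * (x - u) = j := by
    rw [hj]; push_cast; linarith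
  have h1 : x - u ≤ 1 / q := by linarith [hx.2, hmem.1]
  have h2 : -(1 / (q : ℝ)) < x - u := by linarith [hx.1, hmem.2]
  have e : (q : ℝ) * (1 / q) = 1 := by field_simp
  have h3 : (j : ℝ) ≤ 1 := by
    rw [← hqx, ← e]; gcongr
  have h4 : (-1 : ℝ) < j := by
    have : (q : ℝ) * (-(1 / q)) < q * (x - u) := by gcongr
    rw [mul_neg, e, hqx] at this
    exact this
  have h5 : j ≤ 1 := by exact_mod_cast h3
  have h6 : -1 < j := by exact_mod_cast h4
  have h7 : j = 0 ∨ j = 1 := by omega
  rcases h7 with h7 | h7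
  · rw [h7, Int.cast_zero] at hqx
    have : x = u := by
      have := (mul_eq_zero.1 hqx).resolve_left hq'.ne'
      linarith
    rw [this]
  · rw [h7, Int.cast_one] at hqx
    have hxu : x - u = 1 / q := by
      field_simp
      linarith
    have hua : u = a := by linarith [hx.2, hmem.1]
    have hxa : x = a + 1 / q := by linarith
    rw [hua, hxa, Hf_end D h0]

end ineq

end

end Pool.Agent.H45Sturm
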