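import Mathlib

/-! Elementary trigonometric inequalities, second part: admissible range of the parameter. -/

namespace Pool.Agent.H45Sturm

open Real Set

/-- The admissible range of the angular offset. -/
noncomputable def bmax (q : ℕ) : ℝ :=
  if q = 2 then 1 else if q = 3 then 0.55 else π / q / 2

lemma bmax_two : bmax 2 = 1 := by simp [bmax]

lemma bmax_three : bmax 3 = 0.55 := by simp [bmax]

lemma bmax_ge4 {q : ℕ} (hq : 4 ≤ q) : bmax q = π / q / 2 := by
  unfold bmax
  rw [if_neg (by omega), if_neg (by omega)]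

lemma bmax_pos {q : ℕ} (hq : 2 ≤ q) : 0 < bmax q := by
  have := pi_pos
  unfold bmax
  split_ifs with h1 h2
  · norm_num
  · norm_num
  · have : (0 : ℝ) < q := by positivity
    positivity

lemma rho_le {p q : ℕ} (hp : 0 < p) (hpq : p < q) :
    (p : ℝ) / (p + q) * (2 * q - 1) ≤ q - 1 := by
  have hp' : (0 : ℝ) < p := by exact_mod_cast hp
  have hq' : (0 : ℝ) < q := by
    have : 0 < q := by omega
    exact_mod_cast this
  have h : (p : ℝ) + 1 ≤ q := by exact_mod_cast hpq
  rw [div_mul_eq_mul_div, div_le_iff₀ (by positivity)]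
  nlinarith

lemma rho_lt {p q : ℕ} (hp : 0 < p) (hpq : p < q) : (p : ℝ) / (p + q) < 1 / 2 := by
  have hp' : (0 : ℝ) < p := by exact_mod_cast hp
  have h : (p : ℝ) + 1 ≤ q := by exact_mod_cast hpq
  rw [div_lt_div_iff₀ (by linarith) (by norm_num)]
  linarith

lemma rho_pos {p q : ℕ} (hp : 0 < p) (hpq : p < q) : 0 < (p : ℝ) / (p + q) := by
  have hp' : (0 : ℝ) < p := by exact_mod_cast hp
  have h : (p : ℝ) + 1 ≤ q := by exact_mod_cast hpq
  apply div_pos hp'
  linarith

lemma rho_two : ((1 : ℕ) : ℝ) / ((1 : ℕ) + (2 : ℕ)) = 1 / 3 := by norm_num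

lemma rho_three {p : ℕ} (hp : 0 < p) (hpq : p < 3) : (p : ℝ) / (p + (3 : ℕ)) ≤ 2 / 5 := by
  interval_cases p <;> norm_num

lemma c_le {q : ℕ} {n : ℕ} (hn : 0 < n) (hq : n ≤ q) : π / q ≤ π / n := by
  have := pi_pos
  have h1 : (0 : ℝ) < n := by exact_mod_cast hn
  have h2 : (n : ℝ) ≤ q := by exact_mod_cast hq
  gcongr

lemma bmax_add_le {q : ℕ} (hq : 2 ≤ q) : bmax q + π / q ≤ π := by
  have hpi := pi_gt_d2
  rcases Nat.lt_or_ge q 4 with h | h
  · interval_cases q
    · rw [bmax_two]; push_cast; linarith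
    · rw [bmax_three]; push_cast; linarith
  · rw [bmax_ge4 h]
    have := c_le (by norm_num) h
    push_cast at this
    linarith

lemma bmax_le {q : ℕ} (hq : 2 ≤ q) : bmax q ≤ 1 := by
  have hpi := pi_lt_d2
  rcases Nat.lt_or_ge q 4 with h | h
  · interval_cases q
    · rw [bmax_two]
    · rw [bmax_three]; norm_num
  · rw [bmax_ge4 h]
    have := c_le (by norm_num) h
    push_cast at this
    linarith

lemma cos_one_ge : (0.53 : ℝ) ≤ cos 1 := by
  have h1 : cos 1 = 1 - 2 * sin (1 / 2) ^ 2 := by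
    have h0 := cos_two_mul' (1 / 2 : ℝ)
    have h2 : sin (1 / 2 : ℝ) ^ 2 + cos (1 / 2 : ℝ) ^ 2 = 1 := sin_sq_add_cos_sq _
    rw [show (2 : ℝ) * (1 / 2) = 1 by norm_num] at h0
    rw [h0]
    linarith
  have h2 : sin (1 / 2 : ℝ) ≤ 0.4825 := by
    have := abs_le.1 (sin_bound (x := 1 / 2) (by rw [abs_of_nonneg] <;> norm_num))
    have e := this.2
    rw [abs_of_nonneg (by norm_num)] at e
    norm_num at e ⊢
    linarith
  have h3 : 0 ≤ sin (1 / 2 : ℝ) := sin_nonneg_of_nonneg_of_le_pi (by norm_num)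
    (by linarith [pi_gt_d2])
  rw [h1]
  nlinarith

lemma sin_sub_self_ge {w M : ℝ} (hM : 0 ≤ M) (hw : w ≤ M) : -(M ^ 3 / 6) ≤ sin w - w := by
  rcases le_or_gt w 0 with h | h
  · have := sin_le (x := -w) (by linarith)
    rw [sin_neg] at this
    have : 0 ≤ M ^ 3 / 6 := by positivity
    linarith
  · have h1 := sin_ge_sub_cube h.le
    have h2 : w ^ 3 ≤ M ^ 3 := by gcongr
    linarith

lemma cond_h2 {p q : ℕ} (hp : 0 < p) (hpq : p < q) {w : ℝ} (hw : w ≤ π / q - bmax q) :
    bmax q - π / q + 2 * (π / q) * ((p : ℝ) / (p + q)) ≤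
      sin (bmax q + π / q) + sin w - w := by
  have hpi1 := pi_gt_d4
  have hpi2 := pi_lt_d4
  have hq : 2 ≤ q := by omega
  rcases Nat.lt_or_ge q 4 with h | h
  · interval_cases q
    · have hp1 : p = 1 := by omega
      subst hp1
      rw [bmax_two] at *
      push_cast at *
      have h1 := sin_sub_self_ge (M := 0.571) (by norm_num) (w := w) (by linarith)
      have h2 : sin (1 + π / 2) = cos 1 := sin_add_pi_div_two 1
      have h3 := cos_one_ge
      rw [h2]
      norm_num at h1 ⊢
      nlinarith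
    · have hr := rho_three hp hpq
      have hr0 := rho_pos hp hpq
      rw [bmax_three] at *
      set r : ℝ := (p : ℝ) / (p + (3 : ℕ)) with hr'
      push_cast at hw ⊢
      have h1 := sin_sub_self_ge (M := 0.5) (by norm_num) (w := w) (by linarith)
      have h2 : sin (0.55 + π / 3) = cos (0.55 + π / 3 - π / 2) := by
        rw [← sin_add_pi_div_two, sub_add_cancel]
      have h3 : (0.9 : ℝ) ≤ cos (0.55 + π / 3 - π / 2) := by
        have := one_sub_sq_div_two_le_cos (x := 0.55 + π / 3 - π / 2)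
        have k1 : 0 ≤ 0.55 + π / 3 - π / 2 := by linarith
        have k2 : 0.55 + π / 3 - π / 2 ≤ 0.03 := by linarith
        nlinarith
      rw [h2]
      have h4 : 2 * (π / 3) * r ≤ 2 * (π / 3) * (2 / 5) := by gcongr
      norm_num at h1 ⊢
      linarith
  · have hr := rho_lt hp hpq
    have hr0 := rho_pos hp hpq
    rw [bmax_ge4 h] at *
    have hc1 : π / q ≤ π / 4 := by
      have := c_le (by norm_num) h
      push_cast at this
      exact this
    have hc0 : 0 < π / q := by
      have : (0 : ℝ) < q := by positivity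
      positivity
    set r : ℝ := (p : ℝ) / (p + q) with hr'
    set c : ℝ := π / q with hc
    have hc2 : c < 0.7855 := by linarith
    have h1 := sin_sub_self_ge (M := c / 2) (by positivity) (w := w) (by linarith)
    have h2 : c / 2 + c - (c / 2 + c) ^ 3 / 6 ≤ sin (c / 2 + c) := sin_ge_sub_cube (by positivity)
    have h3 : c ^ 2 < 0.6171 := by nlinarith
    have h4 : 2 * c * r < c := by nlinarith
    have h5 : (c / 2 + c) ^ 3 / 6 ≤ 0.6 * c := by
      have : (c / 2 + c) ^ 3 / 6 = 27 / 48 * c ^ 2 * c := by ring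
      rw [this]
      gcongr
      linarith
    have h6 : (c / 2) ^ 3 / 6 ≤ 0.02 * c := by
      have : (c / 2) ^ 3 / 6 = 1 / 48 * c ^ 2 * c := by ring
      rw [this]
      gcongr
      linarith
    linarith

lemma cond_sign {p q : ℕ} (hp : 0 < p) (hpq : p < q) :
    (p : ℝ) / (p + q) * (π / q) ^ 2 < sin (π / q) * sin (bmax q) := by
  have hpi1 := pi_gt_d4
  have hpi2 := pi_lt_d4
  have hq : 2 ≤ q := by omega
  rcases Nat.lt_or_ge q 4 with h | h
  · interval_cases q
    · have hp1 : p = 1 := by omega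
      subst hp1
      rw [bmax_two] at *
      push_cast
      rw [sin_pi_div_two]
      have := sin_ge_sub_cube (x := 1) (by norm_num)
      norm_num at this ⊢
      nlinarith
    · have hr := rho_three hp hpq
      have hr0 := rho_pos hp hpq
      rw [bmax_three] at *
      set r : ℝ := (p : ℝ) / (p + (3 : ℕ)) with hr'
      push_cast
      have hs3 : sin (π / 3) = √3 / 2 := sin_pi_div_three
      have hs3a : (0.866 : ℝ) ≤ sin (π / 3) := by
        rw [hs3]
        have : (1.732 : ℝ) ≤ √3 := by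
          apply Real.le_sqrt_of_sq_le; norm_num
        linarith
      have := sin_ge_sub_cube (x := 0.55) (by norm_num)
      have h5 : (0.52 : ℝ) ≤ sin 0.55 := by norm_num at this ⊢; linarith
      have h6 : (0.866 : ℝ) * 0.52 ≤ sin (π / 3) * sin 0.55 := by gcongr
      have h7 : r * (π / 3) ^ 2 ≤ 2 / 5 * (π / 3) ^ 2 := by gcongr
      have h8 : π ^ 2 < 9.87 := by nlinarith
      nlinarith
  · have hr := rho_le hp hpq
    have hr0 := rho_pos hp hpq
    rw [bmax_ge4 h] at *
    have hc1 : π / q ≤ π / 4 := by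
      have := c_le (by norm_num) h
      push_cast at this
      exact this
    have hq' : (0 : ℝ) < q := by positivity
    have hc0 : 0 < π / q := by positivity
    set r : ℝ := (p : ℝ) / (p + q) with hr'
    have hcq : π / q * q = π := by field_simp
    set c : ℝ := π / q with hc
    have hc2 : c < 0.7855 := by linarith
    have h3 : c ^ 2 < 0.6171 := by nlinarith
    have h4 : r * (2 * π - c) ≤ π - c := by
      have := mul_le_mul_of_nonneg_left hr hc0.le
      nlinarith
    have s1 : c - c ^ 3 / 6 ≤ sin c := sin_ge_sub_cube hc0.le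
    have s2 : c / 2 - (c / 2) ^ 3 / 6 ≤ sin (c / 2) := sin_ge_sub_cube (by positivity)
    have s1' : 0 < c - c ^ 3 / 6 := by
      have : c - c ^ 3 / 6 = c * (1 - c ^ 2 / 6) := by ring
      rw [this]
      have : 0 < 1 - c ^ 2 / 6 := by linarith
      positivity
    have s2' : 0 < c / 2 - (c / 2) ^ 3 / 6 := by
      have : c / 2 - (c / 2) ^ 3 / 6 = c / 2 * (1 - c ^ 2 / 24) := by ring
      rw [this]
      have : 0 < 1 - c ^ 2 / 24 := by linarith
      positivity
    have s3 : (c - c ^ 3 / 6) * (c / 2 - (c / 2) ^ 3 / 6) ≤ sin c * sin (c / 2) := by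
      have : 0 ≤ sin c := s1'.le.trans s1
      gcongr
    have s4 : c ^ 2 / 2 * (1 - 5 * c ^ 2 / 24) ≤ (c - c ^ 3 / 6) * (c / 2 - (c / 2) ^ 3 / 6) := by
      have : (c - c ^ 3 / 6) * (c / 2 - (c / 2) ^ 3 / 6) =
        c ^ 2 / 2 * (1 - 5 * c ^ 2 / 24) + c ^ 6 / 288 := by ring
      rw [this]
      have : 0 ≤ c ^ 6 / 288 := by positivity
      linarith
    have s5 : r < 1 / 2 * (1 - 5 * c ^ 2 / 24) := by
      have h5 : 5 * c * (2 * π - c) < 24 := by nlinarith
      have h6 : π - c < 1 / 2 * (1 - 5 * c ^ 2 / 24) * (2 * π - c) := by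
        have e : 1 / 2 * (1 - 5 * c ^ 2 / 24) * (2 * π - c) =
          π - c / 2 - c / 48 * (5 * c * (2 * π - c)) := by ring
        rw [e]
        nlinarith
      have h7 : 0 < 2 * π - c := by linarith
      exact lt_of_mul_lt_mul_right (h4.trans_lt h6) h7.le
    have s6 : r * c ^ 2 < 1 / 2 * (1 - 5 * c ^ 2 / 24) * c ^ 2 := by gcongr
    linarith

end Pool.Agent.H45Sturm
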