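import Pool.Agent.H45Sturm.Num
import Pool.Agent.H45Sturm.Num2

/-! Combination of the trigonometric inequalities. -/

namespace Pool.Agent.H45Sturm

open Real Set

lemma num_all {p q k : ℕ} (hp : 0 < p) (hpq : p < q) (hk : 1 ≤ k) (hkq : 2 * k ≤ q)
    {b t Δ : ℝ} (hb : |b| ≤ bmax q)
    (hbs : |sin b * sin (π / q)| ≤ (p : ℝ) / (p + q) * (π / q) ^ 2)
    (ht0 : 0 ≤ t) (ht1 : t ≤ 2 * (π / q)) (hk1 : k = 1 → 0 < t) (hq2 : q = 2 → t < π)
    (H1 : Δ ≤ k * (2 * sin b * sin (π / q)) +
      2 * (π / q) * ((p : ℝ) / (p + q)) * (k * (t + (k - 1) * (π / q))))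
    (H2 : Δ ≤ k * (2 * (π / q) ^ 2 * ((p : ℝ) / (p + q))))
    (H3 : q = 3 → Δ ≤ -(2 * sin b * sin (π / q)) +
      2 * (π / q) * ((p : ℝ) / (p + q)) * (2 * (π / q) - t) +
        2 * (π / q) ^ 2 * ((p : ℝ) / (p + q)))
    (H4 : q = 4 → Δ ≤ π ^ 2 / 14)
    (H5 : q = 2 → Δ ≤ -(2 * sin b * sin (π / q)) +
      2 * (π / q) * ((p : ℝ) / (p + q)) * (2 * (π / q) - t)) :
    Δ < 2 * sin (k * (π / q)) * sin (b + t + (k - 1) * (π / q)) := by
  have hpi := pi_pos
  have hr0 := rho_pos hp hpq
  have hr := rho_lt hp hpq
  have hq' : (0 : ℝ) < q := by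
    have : 0 < q := by omega
    exact_mod_cast this
  have hc0 : 0 < π / q := by positivity
  rcases Nat.lt_or_ge k 3 with hk3 | hk3
  · interval_cases k
    · -- k = 1
      have ht := hk1 rfl
      push_cast at *
      rw [one_mul, sub_self, zero_mul, add_zero] at *
      rcases Nat.lt_or_ge q 4 with h | h
      · interval_cases q
        · have hp1 : p = 1 := by omega
          subst hp1
          have H5' := H5 rfl
          have htt := hq2 rfl
          rw [bmax_two] at hb
          push_cast at *
          rw [sin_pi_div_two] at *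
          have hbs' : |sin b| ≤ π ^ 2 / 12 := by
            rw [mul_one] at hbs
            refine hbs.trans (le_of_eq ?_)
            ring
          rcases num_q2 hbs' hb ht htt with h | h
          · nlinarith
          · nlinarith
        · have H3' := H3 rfl
          have hr3 := rho_three hp hpq
          rw [bmax_three] at hb
          push_cast at *
          rcases num_one_3 hr0 hr3 hbs hb ht ht1 with h | h | h
          · nlinarith
          · nlinarith
          · nlinarith
      · have hc1 : π / q ≤ π / 4 := by
          have := c_le (by norm_num) h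
          push_cast at this
          exact this
        rw [bmax_ge4 h] at hb
        rcases num_one_ge4 hc0 hc1 hr0 hr hbs hb ht ht1 with h | h
        · nlinarith
        · nlinarith
    · -- k = 2
      push_cast at *
      have e : ((2 : ℝ) - 1) * (π / q) = π / q := by ring
      rw [e] at *
      rcases Nat.lt_or_ge q 5 with h | h
      · have hq4 : q = 4 := by omega
        subst hq4
        have H4' := H4 rfl
        rw [bmax_ge4 (by norm_num)] at hb
        push_cast at *
        have := num_two_4 (b := b) (t := t) (by rw [show π / 8 = π / 4 / 2 by ring]; exact hb)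
          ht0 ht1
        linarith
      · have hc1 : π / q ≤ π / 5 := by
          have := c_le (by norm_num) h
          push_cast at this
          exact this
        rw [bmax_ge4 (by omega)] at hb
        rcases num_two_ge5 hc0 hc1 hr0 hr hb ht0 ht1 with h | h
        · nlinarith
        · nlinarith
  · have hkr : (3 : ℝ) ≤ k := by exact_mod_cast hk3
    have hkc : (k : ℝ) * (π / q) ≤ π / 2 := by
      have : 2 * (k : ℝ) ≤ q := by exact_mod_cast hkq
      rw [mul_div_assoc', div_le_div_iff₀ hq' (by norm_num)]
      nlinarith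
    rw [bmax_ge4 (by omega)] at hb
    have := num_ge3 hc0 hkr hkc hr0 hr hb ht0 ht1
    nlinarith

end Pool.Agent.H45Sturm
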