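import Pool.Agent.H45Sturm.Psi
import Pool.Agent.H45Sturm.NumAll

/-! The case of the cosine: the sub-action inequality. -/

namespace Pool.Agent.H45Sturm

open Real Set Filter MeasureTheory

noncomputable section

/-- The function to be maximised. -/
def ff (θ x : ℝ) : ℝ := cos (2 * π * (x - θ))

/-- Its derivative. -/
def hh (θ x : ℝ) : ℝ := -(2 * π) * sin (2 * π * (x - θ))

lemma ff_deriv (θ x : ℝ) : HasDerivAt (ff θ) (hh θ x) x := by
  have h1 : HasDerivAt (fun x : ℝ => 2 * π * (x - θ)) (2 * π) x := by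
    simpa using ((hasDerivAt_id x).sub_const θ).const_mul (2 * π)
  have h2 := h1.cos
  refine h2.congr_deriv ?_
  unfold hh
  ring

lemma hh_cont (θ : ℝ) : Continuous (hh θ) := by unfold hh; fun_prop

lemma ff_cont (θ : ℝ) : Continuous (ff θ) := by unfold ff; fun_prop

lemma ff_per (θ x : ℝ) : ff θ (x + 1) = ff θ x := by
  unfold ff
  rw [show 2 * π * (x + 1 - θ) = 2 * π * (x - θ) + 2 * π by ring, cos_add_two_pi]

lemma hh_bound (θ x : ℝ) : |hh θ x| ≤ 2 * π := by
  unfold hh
  rw [abs_mul, abs_neg, abs_of_pos (by positivity)]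
  have := abs_sin_le_one (2 * π * (x - θ))
  nlinarith [pi_pos]

lemma hh_diff (θ u v : ℝ) :
    hh θ v - hh θ u = -(4 * π) * (sin (π * (v - u)) * cos (π * (u + v - 2 * θ))) := by
  unfold hh
  have := sin_sub_sin (2 * π * (v - θ)) (2 * π * (u - θ))
  rw [show (2 * π * (v - θ) - 2 * π * (u - θ)) / 2 = π * (v - u) by ring,
    show (2 * π * (v - θ) + 2 * π * (u - θ)) / 2 = π * (u + v - 2 * θ) by ring] at this
  linear_combination (-(2 * π)) * this

/-- The angular offset. -/
def bb (q : ℕ) (a θ : ℝ) : ℝ := 2 * π * (a - θ) + π / q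

lemma mkData {p q : ℕ} (hp : 0 < p) (hpq : p < q) {a θ : ℝ} (hb : |bb q a θ| ≤ bmax q) :
    Data p q a (ff θ) (hh θ) (2 * π) (4 * π ^ 2) := by
  have hpi := pi_pos
  have hq : 0 < q := by omega
  have hq' : (0 : ℝ) < q := by exact_mod_cast hq
  have hp' : (0 : ℝ) < p := by exact_mod_cast hp
  refine ⟨hp, hpq, ff_deriv θ, hh_cont θ, hh_bound θ, by positivity, ?_, ?_, ff_per θ⟩
  · intro u _ v _ huv
    have h1 := abs_sin_sub_sin_le (2 * π * (u - θ)) (2 * π * (v - θ))
    rw [show 2 * π * (u - θ) - 2 * π * (v - θ) = 2 * π * (u - v) by ring,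
      abs_of_nonneg (show 0 ≤ 2 * π * (u - v) by
        have : 0 ≤ u - v := by linarith
        positivity)] at h1
    have h2 := (abs_le.1 h1).2
    unfold hh
    nlinarith
  · intro u hu v hv huv
    rw [hh_diff]
    set z : ℝ := π * (v - u) with hz
    set m : ℝ := π * (u + v - 2 * θ) with hm
    set c : ℝ := π / q with hc
    have hc0 : 0 < c := by positivity
    have hz0 : 0 < z := by
      have : 0 < v - u := by linarith
      positivity
    have hzc : z < c := by
      have h1 : v - u < 1 / q := by linarith [hu.1, hv.2]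
      have : π * (v - u) < π * (1 / q) := by gcongr
      rw [mul_one_div] at this
      exact this
    have hbm := abs_le.1 hb
    have hcq : π * (1 / q) = c := by rw [mul_one_div]
    have hm1 : |m| ≤ bmax q + c - z := by
      rw [abs_le]
      unfold bb at hbm
      rw [← hc] at hbm
      have e1 : m = (2 * π * (a - θ) + c) + (π * (u - a) + π * (v - a) - c) := by
        rw [hm]; ring
      have e2 : π * (u - a) + π * (v - a) - c ≤ c - z := by
        have : π * v < π * (a + 1 / q) := by
          have := hv.2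
          gcongr
        rw [hz]
        nlinarith
      have e3 : -(c - z) ≤ π * (u - a) + π * (v - a) - c := by
        have : π * a ≤ π * u := by
          have := hu.1
          gcongr
        rw [hz]
        nlinarith
      rw [e1]
      constructor <;> linarith [hbm.1, hbm.2]
    have hq2 : 2 ≤ q := by omega
    have hle := bmax_add_le hq2
    have hcos : cos (bmax q + c - z) ≤ cos m := by
      rw [← cos_abs m]
      apply cos_le_cos_of_nonneg_of_le_pi (abs_nonneg _) (by linarith) hm1
    have hsz : 0 < sin z := sin_pos_of_pos_of_lt_pi hz0 (by linarith [bmax_pos hq2])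
    have hprod : 2 * (sin z * cos (bmax q + c - z)) =
        sin (bmax q + c) + sin (2 * z - (bmax q + c)) := by
      have key : ∀ B : ℝ, 2 * (sin z * cos B) = sin (z + B) + sin (z - B) := by
        intro B
        rw [sin_add, sin_sub]
        ring
      rw [key]
      congr 2 <;> ring
    have hcond := cond_h2 hp hpq (w := 2 * z - (bmax q + c)) (by rw [← hc]; linarith)
    rw [← hc] at hcond
    have h3 : sin z * cos (bmax q + c - z) ≤ sin z * cos m := by gcongr
    have h4 : z - c * (1 - (p : ℝ) / (p + q)) ≤ sin z * cos m := by nlinarith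
    have h5 : 4 * π ^ 2 * (1 / (q * (1 + (p : ℝ) / q)) - (v - u)) =
        4 * π * (c * (1 - (p : ℝ) / (p + q)) - z) := by
      rw [hz, hc]
      have : (p : ℝ) + q ≠ 0 := by positivity
      have : (q : ℝ) + p ≠ 0 := by positivity
      field_simp
      ring
    rw [h5]
    nlinarith

section estimates

variable {p q : ℕ} {a θ : ℝ}

lemma ff_a (q : ℕ) (a θ : ℝ) : ff θ a = cos (bb q a θ - π / q) := by
  unfold ff bb; congr 1; ring

lemma ff_a' (q : ℕ) (hq : 0 < q) (a θ : ℝ) : ff θ (a + 1 / q) = cos (bb q a θ + π / q) := by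
  have : (q : ℝ) ≠ 0 := by positivity
  unfold ff bb; congr 1; field_simp; ring

lemma ff_delta (hq : 0 < q) : ff θ a - ff θ (a + 1 / q) = 2 * sin (bb q a θ) * sin (π / q) := by
  rw [ff_a q, ff_a' q hq, cos_sub, cos_add]
  ring

lemma ff_fwd (hq : 0 < q) (s : ℝ) (k : ℕ) : ff θ (a + s) - ff θ (a + s + k / q) =
    2 * sin (k * (π / q)) * sin (bb q a θ + 2 * π * s + (k - 1) * (π / q)) := by
  have hq' : (q : ℝ) ≠ 0 := by positivity
  unfold ff
  rw [cos_sub_cos]
  have e1 : (2 * π * (a + s - θ) + 2 * π * (a + s + k / q - θ)) / 2 =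
      bb q a θ + 2 * π * s + (k - 1) * (π / q) := by
    unfold bb; field_simp; ring
  have e2 : (2 * π * (a + s - θ) - 2 * π * (a + s + k / q - θ)) / 2 = -(k * (π / q)) := by
    field_simp; ring
  rw [e1, e2, sin_neg]
  ring

lemma ff_bwd (hq : 0 < q) (s : ℝ) (k : ℕ) :
    ff θ (a + 1 / q - s) - ff θ (a + 1 / q - s - k / q) =
    2 * sin (k * (π / q)) * sin (-bb q a θ + 2 * π * s + (k - 1) * (π / q)) := by
  have hq' : (q : ℝ) ≠ 0 := by positivity
  unfold ff
  rw [cos_sub_cos]
  have e1 : (2 * π * (a + 1 / q - s - θ) + 2 * π * (a + 1 / q - s - k / q - θ)) / 2 =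
      -(-bb q a θ + 2 * π * s + (k - 1) * (π / q)) := by
    unfold bb; field_simp; ring
  have e2 : (2 * π * (a + 1 / q - s - θ) - 2 * π * (a + 1 / q - s - k / q - θ)) / 2 =
      k * (π / q) := by
    field_simp; ring
  rw [e1, e2, sin_neg]
  ring

end estimates

end

end Pool.Agent.H45Sturm
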