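import Mathlib

/-! The contracted rotation and the derivative of the sub-action. -/

namespace Pool.Agent.H45Sturm

open Set Filter MeasureTheory

noncomputable section

/-- The inverse branch of the multivalued map with values in `[a, a + 1/q)`. -/
def phi (p q : ℕ) (a y : ℝ) : ℝ := a + Int.fract (p * y - q * a) / q

/-- The derivative of the sub-action. -/
def gsum (p q : ℕ) (a : ℝ) (h : ℝ → ℝ) (y : ℝ) : ℝ :=
  ∑' n : ℕ, ((p : ℝ) / q) ^ (n + 1) * h ((phi p q a)^[n + 1] y)

section basic

variable {p q : ℕ} (a : ℝ)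

lemma phi_mem (hq : 0 < q) (y : ℝ) : phi p q a y ∈ Ico a (a + 1 / q) := by
  have hq' : (0 : ℝ) < q := by exact_mod_cast hq
  unfold phi
  constructor
  · have := Int.fract_nonneg ((p : ℝ) * y - q * a)
    have : 0 ≤ Int.fract ((p : ℝ) * y - q * a) / q := by positivity
    linarith
  · have := Int.fract_lt_one ((p : ℝ) * y - q * a)
    have : Int.fract ((p : ℝ) * y - q * a) / q < 1 / q := by gcongr
    linarith

lemma phi_int (hq : 0 < q) (y : ℝ) : (q : ℝ) * phi p q a y = p * y - ⌊(p : ℝ) * y - q * a⌋ := by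
  have hq' : (q : ℝ) ≠ 0 := by positivity
  unfold phi
  have := Int.fract_add_floor ((p : ℝ) * y - q * a)
  field_simp
  linarith

lemma phi_add (hp : 0 < p) (y : ℝ) (j : ℤ) : phi p q a (y + j / p) = phi p q a y := by
  have hp' : (p : ℝ) ≠ 0 := by positivity
  unfold phi
  have : (p : ℝ) * (y + j / p) - q * a = (p * y - q * a) + j := by field_simp; ring
  rw [this, Int.fract_add_intCast]

/-- On the fundamental interval starting at `q a / p` the map is linear. -/
lemma phi_lin (hp : 0 < p) (hq : 0 < q) {v : ℝ} (hv0 : 0 ≤ v) (hv : v < 1 / p) :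
    phi p q a ((q : ℝ) * a / p + v) = a + (p : ℝ) / q * v := by
  have hp' : (0 : ℝ) < p := by exact_mod_cast hp
  have hq' : (0 : ℝ) < q := by exact_mod_cast hq
  unfold phi
  have h1 : (p : ℝ) * ((q : ℝ) * a / p + v) - q * a = p * v := by field_simp; ring
  rw [h1]
  have h2 : Int.fract ((p : ℝ) * v) = p * v := by
    rw [Int.fract_eq_self]
    refine ⟨by positivity, ?_⟩
    rw [lt_div_iff₀ hp'] at hv
    linarith
  rw [h2]
  ring

lemma measurable_phi : Measurable (phi p q a) := by
  unfold phi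
  exact measurable_const.add ((Measurable.fract (by fun_prop)).div_const _)

lemma measurable_iter (n : ℕ) : Measurable ((phi p q a)^[n]) :=
  (measurable_phi a).iterate n

end basic

section series

variable {p q : ℕ} {a : ℝ} {h : ℝ → ℝ} {K : ℝ}

lemma lam_pos (hp : 0 < p) (hpq : p < q) : (0 : ℝ) < (p : ℝ) / q := by
  have : 0 < q := by omega
  positivity

lemma lam_lt (hp : 0 < p) (hpq : p < q) : (p : ℝ) / q < 1 := by
  have hq : (0 : ℝ) < q := by
    have : 0 < q := by omega
    exact_mod_cast this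
  rw [div_lt_one hq]
  exact_mod_cast hpq

lemma summable_g (hp : 0 < p) (hpq : p < q) (hK : ∀ x, |h x| ≤ K) (y : ℝ) :
    Summable fun n : ℕ => ((p : ℝ) / q) ^ (n + 1) * h ((phi p q a)^[n + 1] y) := by
  have l0 := lam_pos hp hpq
  have l1 := lam_lt hp hpq
  refine Summable.of_norm_bounded (g := fun n : ℕ => ((p : ℝ) / q) ^ (n + 1) * K) ?_ ?_
  · refine Summable.mul_right _ ?_
    exact (summable_nat_add_iff 1).2 (summable_geometric_of_lt_one l0.le l1)
  · intro n
    rw [norm_mul, Real.norm_eq_abs, Real.norm_eq_abs, abs_of_nonneg (by positivity)]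
    gcongr
    exact hK _

lemma gsum_eq (hp : 0 < p) (hpq : p < q) (hK : ∀ x, |h x| ≤ K) (y : ℝ) :
    gsum p q a h y = (p : ℝ) / q * (h (phi p q a y) + gsum p q a h (phi p q a y)) := by
  unfold gsum
  rw [(summable_g (a := a) hp hpq hK y).tsum_eq_zero_add]
  rw [mul_add, ← tsum_mul_left]
  congr 1
  · simp
  · congr 1
    funext n
    rw [pow_succ, Function.iterate_succ_apply]
    ring

lemma gsum_bound (hp : 0 < p) (hpq : p < q) (hK : ∀ x, |h x| ≤ K) (y : ℝ) :
    |gsum p q a h y| ≤ (p : ℝ) / q * K * (1 - (p : ℝ) / q)⁻¹ := by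
  have l0 := lam_pos hp hpq
  have l1 := lam_lt hp hpq
  unfold gsum
  rw [← Real.norm_eq_abs]
  refine tsum_of_norm_bounded (g := fun n : ℕ => (p : ℝ) / q * K * ((p : ℝ) / q) ^ n) ?_ ?_
  · exact (hasSum_geometric_of_lt_one l0.le l1).mul_left _
  · intro n
    rw [norm_mul, Real.norm_eq_abs, Real.norm_eq_abs, abs_of_nonneg (by positivity)]
    have := hK ((phi p q a)^[n + 1] y)
    calc ((p : ℝ) / q) ^ (n + 1) * |h ((phi p q a)^[n + 1] y)| ≤ ((p : ℝ) / q) ^ (n + 1) * K := by
          gcongr
      _ = _ := by ring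

lemma measurable_gsum (hh : Measurable h) : Measurable (gsum p q a h) := by
  unfold gsum
  refine Measurable.tsum fun n => ?_
  exact (hh.comp (measurable_iter a (n + 1))).const_mul _

lemma gsum_periodic (hp : 0 < p) (y : ℝ) (j : ℤ) :
    gsum p q a h (y + j / p) = gsum p q a h y := by
  unfold gsum
  congr 1
  funext n
  rw [Function.iterate_succ_apply, Function.iterate_succ_apply, phi_add a hp]

lemma gsum_intervalIntegrable (hp : 0 < p) (hpq : p < q) (hh : Measurable h)
    (hK : ∀ x, |h x| ≤ K) (u v : ℝ) : IntervalIntegrable (gsum p q a h) volume u v := by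
  have hm : Measurable (gsum p q a h) := measurable_gsum hh
  have hb : ∀ y, ‖gsum p q a h y‖ ≤ (p : ℝ) / q * K * (1 - (p : ℝ) / q)⁻¹ := fun y => by
    rw [Real.norm_eq_abs]; exact gsum_bound hp hpq hK y
  refine (intervalIntegrable_const (c := (p : ℝ) / q * K * (1 - (p : ℝ) / q)⁻¹)).mono_fun
    hm.aestronglyMeasurable ?_
  refine Filter.Eventually.of_forall fun y => ?_
  refine (hb y).trans (le_abs_self _)

end series

end

end Pool.Agent.H45Sturm
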