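import Pool.Agent.H45Sturm.Periodic

/-! Convexity of the set of barycentres, supporting functionals and the main theorem. -/

namespace Pool.Agent.H45Sturm

open Real Set Filter MeasureTheory Topology

open scoped ENNReal

noncomputable section

variable {p q : ℕ}

lemma Lin_eq (θ : ℝ) (z : ℂ) : Lin θ z = z.re * cos (2 * π * θ) + z.im * sin (2 * π * θ) := by
  unfold Lin
  have e : (-(2 * π * θ * Complex.I) : ℂ) = ((-(2 * π * θ) : ℝ) : ℂ) * Complex.I := by
    push_cast; ring
  rw [e, Complex.mul_re, Complex.exp_ofReal_mul_I_re, Complex.exp_ofReal_mul_I_im, cos_neg, sin_neg]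
  ring

lemma exists_Lin (f : ℂ →ₗ[ℝ] ℝ) (hf : f ≠ 0) : ∃ r θ : ℝ, 0 < r ∧ ∀ z, f z = r * Lin θ z := by
  set w : ℂ := ⟨f 1, f Complex.I⟩ with hw
  have hfz : ∀ z : ℂ, f z = z.re * f 1 + z.im * f Complex.I := by
    intro z
    have e : z = z.re • (1 : ℂ) + z.im • Complex.I := by
      apply Complex.ext <;> simp
    conv_lhs => rw [e]
    rw [map_add, map_smul, map_smul, smul_eq_mul, smul_eq_mul]
  have hw0 : w ≠ 0 := by
    intro h
    apply hf
    have h1 : f 1 = 0 := congrArg Complex.re h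
    have h2 : f Complex.I = 0 := congrArg Complex.im h
    ext z
    rw [hfz, h1, h2]
    simp
  refine ⟨‖w‖, Complex.arg w / (2 * π), norm_pos_iff.2 hw0, fun z => ?_⟩
  have e : 2 * π * (Complex.arg w / (2 * π)) = Complex.arg w := by field_simp
  rw [Lin_eq, e, hfz]
  have h1 := Complex.norm_mul_cos_arg w
  have h2 := Complex.norm_mul_sin_arg w
  have h3 : w.re = f 1 := rfl
  have h4 : w.im = f Complex.I := rfl
  rw [h3] at h1
  rw [h4] at h2
  rw [← h1, ← h2]
  ring

/-- Supporting functionals at boundary points of convex sets in the plane. -/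
lemma exists_support {S : Set ℂ} (hS : Convex ℝ S) {b : ℂ} (hbS : b ∈ S) (hb : b ∈ frontier S) :
    ∃ θ : ℝ, ∀ z ∈ S, Lin θ z ≤ Lin θ b := by
  have key : ∃ f : ℂ →ₗ[ℝ] ℝ, f ≠ 0 ∧ ∀ z ∈ S, f z ≤ f b := by
    by_cases hne : (interior S).Nonempty
    · obtain ⟨f, u, hf0, h1, h2⟩ := geometric_hahn_banach_of_nonempty_interior hS
        (convex_singleton b) (disjoint_singleton_right.2 hb.2) hne (singleton_nonempty b)
      refine ⟨f.toLinearMap, ?_, fun z hz => (h1 z hz).trans (h2 b rfl)⟩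
      intro h
      apply hf0
      ext z
      exact congrArg (fun g : ℂ →ₗ[ℝ] ℝ => g z) h
    · rw [hS.interior_nonempty_iff_affineSpan_eq_top] at hne
      have hnon : ((affineSpan ℝ S : AffineSubspace ℝ ℂ) : Set ℂ).Nonempty :=
        ⟨b, subset_affineSpan ℝ S hbS⟩
      rw [← AffineSubspace.direction_eq_top_iff_of_nonempty hnon] at hne
      obtain ⟨f, hf0, hf⟩ := Submodule.exists_le_ker_of_lt_top _ (lt_top_iff_ne_top.2 hne)
      refine ⟨f, hf0, fun z hz => ?_⟩
      have h1 : z -ᵥ b ∈ (affineSpan ℝ S).direction :=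
        AffineSubspace.vsub_mem_direction (subset_affineSpan ℝ S hz) (subset_affineSpan ℝ S hbS)
      have h2 := hf h1
      rw [LinearMap.mem_ker, vsub_eq_sub, map_sub] at h2
      linarith
  obtain ⟨f, hf0, hf⟩ := key
  obtain ⟨r, θ, hr, h⟩ := exists_Lin f hf0
  refine ⟨θ, fun z hz => ?_⟩
  have := hf z hz
  rw [h, h] at this
  exact le_of_mul_le_mul_left this hr

lemma notMem_interior {S : Set ℂ} {θ : ℝ} {b : ℂ} (h : ∀ z ∈ S, Lin θ z ≤ Lin θ b) :
    b ∉ interior S := by
  intro hb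
  rw [mem_interior_iff_mem_nhds, Metric.mem_nhds_iff] at hb
  obtain ⟨ε, hε, hball⟩ := hb
  set e : ℂ := ⟨cos (2 * π * θ), sin (2 * π * θ)⟩ with he
  have hLe : Lin θ e = 1 := by
    rw [Lin_eq, he]
    simp only
    nlinarith [cos_sq_add_sin_sq (2 * π * θ)]
  have hne : ‖e‖ = 1 := by
    rw [Complex.norm_def, Complex.normSq_apply, he]
    simp only
    rw [show cos (2 * π * θ) * cos (2 * π * θ) + sin (2 * π * θ) * sin (2 * π * θ) = 1 by
      nlinarith [cos_sq_add_sin_sq (2 * π * θ)]]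
    simp
  have hm : b + (ε / 2) • e ∈ Metric.ball b ε := by
    rw [Metric.mem_ball, dist_eq_norm, add_sub_cancel_left, norm_smul, hne, Real.norm_eq_abs,
      abs_of_pos (by positivity)]
    linarith
  have := h _ (hball hm)
  rw [Lin_add, Lin_smul, hLe] at this
  linarith

lemma convex_barySet (p q : ℕ) : Convex ℝ (barySet p q) := by
  rintro _ ⟨μ1, ⟨hp1, m1, hm1, h11, h12⟩, rfl⟩ _ ⟨μ2, ⟨hp2, m2, hm2, h21, h22⟩, rfl⟩ s t hs ht hst
  have hsum : ENNReal.ofReal s + ENNReal.ofReal t = 1 := by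
    rw [← ENNReal.ofReal_add hs ht, hst, ENNReal.ofReal_one]
  have f1 : Measurable (fun z : graph p q => z.1.1) := by fun_prop
  have f2 : Measurable (fun z : graph p q => z.1.2) := by fun_prop
  refine ⟨ENNReal.ofReal s • μ1 + ENNReal.ofReal t • μ2, ⟨⟨?_⟩,
    ENNReal.ofReal s • m1 + ENNReal.ofReal t • m2, ⟨?_⟩, ?_, ?_⟩, ?_⟩
  · simp [hsum]
  · simp [hsum]
  · rw [Measure.map_add _ _ f1, Measure.map_smul, Measure.map_smul, h11, h21]
  · rw [Measure.map_add _ _ f2, Measure.map_smul, Measure.map_smul, h12, h22]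
  · unfold barycentre
    rw [integral_add_measure, integral_smul_measure, integral_smul_measure,
      ENNReal.toReal_ofReal hs, ENNReal.toReal_ofReal ht]
    · exact (integrable_coe μ1).smul_measure ENNReal.ofReal_ne_top
    · exact (integrable_coe μ2).smul_measure ENNReal.ofReal_ne_top

/-- The main theorem. -/
theorem main (hp : 1 ≤ p) (hpq : p < q) {μ : Measure S1} (hμ : Invariant p q μ) :
    barycentre μ ∈ frontier (barySet p q) ↔ Sturmian q μ := by
  constructor
  · intro hb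
    obtain ⟨θ, hθ⟩ := exists_support (convex_barySet p q) ⟨μ, hμ, rfl⟩ hb
    obtain ⟨a, ha, h0⟩ := exists_a (by omega : 0 < p) hpq θ
    have D := mkData (by omega : 0 < p) hpq ha
    have ht := transport D h0 ha hμ
    refine ⟨a, ht.2.1 (le_antisymm ht.1 ?_)⟩
    apply le_of_forall_pos_le_add
    intro ε hε
    obtain ⟨ν, hν, hle⟩ := near_optimal D h0 hε
    have := hθ _ ⟨ν, hν, rfl⟩
    linarith
  · rintro ⟨a, ha⟩
    obtain ⟨θ, hθ, h0⟩ := exists_theta (by omega : 0 < p) hpq a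
    have D := mkData (by omega : 0 < p) hpq hθ
    have ht := transport D h0 hθ hμ
    have heq := ht.2.2 ha
    refine ⟨subset_closure ⟨μ, hμ, rfl⟩, notMem_interior (θ := θ) ?_⟩
    rintro _ ⟨ν, hν, rfl⟩
    rw [heq]
    exact (transport D h0 hθ hν).1

end

end Pool.Agent.H45Sturm
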