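import Pool.Agent.H45Sturm.Main

/-! Existence of the parameters (intermediate value theorem). -/

namespace Pool.Agent.H45Sturm

open Real Set Filter MeasureTheory Topology

noncomputable section

variable {p q : ℕ}

lemma phi_preimage_countable (hp : 0 < p) (hq : 0 < q) (a : ℝ) {S : Set ℝ} (hS : S.Countable) :
    (phi p q a ⁻¹' S).Countable := by
  have hp' : (p : ℝ) ≠ 0 := by positivity
  have : phi p q a ⁻¹' S ⊆ ⋃ m : ℤ, (fun x : ℝ => ((q : ℝ) * x + m) / p) '' S := by
    intro y hy
    refine mem_iUnion.2 ⟨⌊(p : ℝ) * y - q * a⌋, ⟨phi p q a y, hy, ?_⟩⟩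
    have := phi_int a hq (p := p) y
    simp only
    rw [this]
    field_simp
    ring
  exact (countable_iUnion fun m => hS.image _).mono this

lemma iter_preimage_countable (hp : 0 < p) (hq : 0 < q) (a : ℝ) {S : Set ℝ} (hS : S.Countable)
    (n : ℕ) : ((phi p q a)^[n] ⁻¹' S).Countable := by
  induction n generalizing S with
  | zero => simpa using hS
  | succ n ih =>
    rw [Function.iterate_succ', preimage_comp]
    exact ih (phi_preimage_countable hp hq a hS)

/-- The set of points where the branch jumps. -/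
def jump (p q : ℕ) (a : ℝ) : Set ℝ := {z | ∃ m : ℤ, (p : ℝ) * z - q * a = m}

lemma jump_countable (hp : 0 < p) (a : ℝ) : (jump p q a).Countable := by
  have hp' : (p : ℝ) ≠ 0 := by positivity
  have : jump p q a ⊆ Set.range fun m : ℤ => ((q : ℝ) * a + m) / p := by
    rintro z ⟨m, hm⟩
    refine ⟨m, ?_⟩
    simp only
    rw [← hm]
    field_simp
    ring
  exact (countable_range _).mono this

lemma phi_continuousAt {a0 : ℝ} {u : ℝ → ℝ} (hu : ContinuousAt u a0) (hj : u a0 ∉ jump p q a0) :
    ContinuousAt (fun a => phi p q a (u a)) a0 := by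
  unfold phi
  refine continuousAt_id.add (ContinuousAt.div_const ?_ _)
  refine ContinuousAt.comp (f := fun a => (p : ℝ) * u a - q * a) (g := Int.fract) ?_ ?_
  · apply continuousAt_fract
    intro h
    exact hj ⟨_, h⟩
  · exact (hu.const_mul _).sub (continuousAt_id.const_mul _)

lemma iter_continuousAt {a0 y : ℝ} (hy : ∀ n, (phi p q a0)^[n] y ∉ jump p q a0) (n : ℕ) :
    ContinuousAt (fun a => (phi p q a)^[n] y) a0 := by
  induction n with
  | zero => exact continuousAt_const
  | succ n ih =>
    have : (fun a => (phi p q a)^[n + 1] y) = fun a => phi p q a ((phi p q a)^[n] y) := by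
      funext a
      rw [Function.iterate_succ_apply']
    rw [this]
    exact phi_continuousAt ih (hy n)

lemma gsum_continuousAt {h : ℝ → ℝ} {K : ℝ} (hp : 0 < p) (hpq : p < q) (hc : Continuous h)
    (hK : ∀ x, |h x| ≤ K) {a0 y : ℝ} (hy : ∀ n, (phi p q a0)^[n] y ∉ jump p q a0) :
    ContinuousAt (fun a => gsum p q a h y) a0 := by
  have l0 := lam_pos hp hpq
  have l1 := lam_lt hp hpq
  unfold gsum ContinuousAt
  refine tendsto_tsum_of_dominated_convergence (bound := fun n : ℕ => ((p : ℝ) / q) ^ (n + 1) * K)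
    ?_ ?_ ?_
  · refine Summable.mul_right _ ?_
    exact (summable_nat_add_iff 1).2 (summable_geometric_of_lt_one l0.le l1)
  · intro n
    exact ((hc.continuousAt.comp (iter_continuousAt hy (n + 1))).const_mul _)
  · refine Eventually.of_forall fun a n => ?_
    rw [norm_mul, Real.norm_eq_abs, Real.norm_eq_abs, abs_of_nonneg (by positivity)]
    gcongr
    exact hK _

lemma czero_continuous {h : ℝ → ℝ} {K : ℝ} (hp : 0 < p) (hpq : p < q) (hc : Continuous h)
    (hK : ∀ x, |h x| ≤ K) : Continuous fun a => czero p q a h := by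
  have hq : 0 < q := by omega
  rw [continuous_iff_continuousAt]
  intro a0
  unfold czero
  refine intervalIntegral.continuousAt_of_dominated_interval
    (bound := fun _ => (p : ℝ) / q * K * (1 - (p : ℝ) / q)⁻¹) ?_ ?_ intervalIntegrable_const ?_
  · exact Eventually.of_forall fun a => (measurable_gsum hc.measurable).aestronglyMeasurable
  · refine Eventually.of_forall fun a => Eventually.of_forall fun t _ => ?_
    rw [Real.norm_eq_abs]
    exact gsum_bound hp hpq hK t
  · have hN : (⋃ n, (phi p q a0)^[n] ⁻¹' (jump p q a0)).Countable :=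
      countable_iUnion fun n => iter_preimage_countable hp hq a0 (jump_countable hp a0) n
    have h0 := hN.measure_zero volume
    rw [measure_eq_zero_iff_ae_notMem] at h0
    filter_upwards [h0] with t ht _
    apply gsum_continuousAt hp hpq hc hK
    intro n hn
    exact ht (mem_iUnion.2 ⟨n, hn⟩)

lemma hh_lin (θ x : ℝ) : hh θ x = cos (2 * π * θ) * hh 0 x + sin (2 * π * θ) * hh (1 / 4) x := by
  unfold hh
  have e1 : 2 * π * (x - θ) = 2 * π * x - 2 * π * θ := by ring
  have e2 : 2 * π * (x - 1 / 4) = 2 * π * x - π / 2 := by ring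
  rw [e1, e2, sub_zero, sin_sub, sin_sub_pi_div_two]
  ring

lemma czero_lin (hp : 0 < p) (hpq : p < q) (a θ : ℝ) : czero p q a (hh θ) =
    cos (2 * π * θ) * czero p q a (hh 0) + sin (2 * π * θ) * czero p q a (hh (1 / 4)) := by
  have e : ∀ y, gsum p q a (hh θ) y = cos (2 * π * θ) * gsum p q a (hh 0) y +
      sin (2 * π * θ) * gsum p q a (hh (1 / 4)) y := by
    intro y
    unfold gsum
    rw [← tsum_mul_left, ← tsum_mul_left, ← Summable.tsum_add]
    · congr 1
      funext n
      rw [hh_lin θ]
      ring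
    · exact (summable_g hp hpq (hh_bound 0) y).mul_left _
    · exact (summable_g hp hpq (hh_bound (1 / 4)) y).mul_left _
  unfold czero
  simp_rw [e]
  rw [intervalIntegral.integral_add, intervalIntegral.integral_const_mul,
    intervalIntegral.integral_const_mul]
  · exact (gsum_intervalIntegrable hp hpq (hh_cont 0).measurable (hh_bound 0) _ _).const_mul _
  · exact (gsum_intervalIntegrable hp hpq (hh_cont _).measurable (hh_bound (1 / 4)) _ _).const_mul _

lemma czero_neg (hp : 0 < p) (hpq : p < q) {a θ : ℝ} (hb : bb q a θ = bmax q) :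
    czero p q a (hh θ) < 0 := by
  have hq2 : 2 ≤ q := by omega
  have hpos := bmax_pos hq2
  have D := mkData hp hpq (a := a) (θ := θ) (by rw [hb, abs_of_pos hpos])
  have h1 := T2_up D a
  have h2 := czero_relation D
  have h3 := cond_sign hp hpq
  rw [hb] at h2
  have l1 := D.l1
  nlinarith

lemma czero_pos (hp : 0 < p) (hpq : p < q) {a θ : ℝ} (hb : bb q a θ = -bmax q) :
    0 < czero p q a (hh θ) := by
  have hq2 : 2 ≤ q := by omega
  have hpos := bmax_pos hq2
  have D := mkData hp hpq (a := a) (θ := θ) (by rw [hb, abs_neg, abs_of_pos hpos])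
  have h1 := T2_lo D a
  have h2 := czero_relation D
  have h3 := cond_sign hp hpq
  rw [hb, sin_neg] at h2
  have l1 := D.l1
  nlinarith

/-- For every arc there is a direction. -/
theorem exists_theta (hp : 0 < p) (hpq : p < q) (a : ℝ) :
    ∃ θ, |bb q a θ| ≤ bmax q ∧ czero p q a (hh θ) = 0 := by
  have hq2 : 2 ≤ q := by omega
  have hpos := bmax_pos hq2
  have hpi := pi_pos
  set θ1 : ℝ := a + (π / q - bmax q) / (2 * π) with h1
  set θ2 : ℝ := a + (π / q + bmax q) / (2 * π) with h2
  have e1 : bb q a θ1 = bmax q := by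
    unfold bb; rw [h1]; field_simp; ring
  have e2 : bb q a θ2 = -bmax q := by
    unfold bb; rw [h2]; field_simp; ring
  have hle : θ1 ≤ θ2 := by
    rw [h1, h2]; gcongr; linarith
  have hcont : ContinuousOn (fun θ => czero p q a (hh θ)) (Icc θ1 θ2) := by
    have : (fun θ => czero p q a (hh θ)) = fun θ => cos (2 * π * θ) * czero p q a (hh 0) +
      sin (2 * π * θ) * czero p q a (hh (1 / 4)) := by
      funext θ; exact czero_lin hp hpq a θ
    rw [this]
    fun_prop
  have hmem : (0 : ℝ) ∈ Icc (czero p q a (hh θ1)) (czero p q a (hh θ2)) :=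
    ⟨(czero_neg hp hpq e1).le, (czero_pos hp hpq e2).le⟩
  obtain ⟨θ, hθ, hz⟩ := intermediate_value_Icc hle hcont hmem
  refine ⟨θ, ?_, hz⟩
  have m1 : bb q a θ ≤ bb q a θ1 := by
    unfold bb
    have := hθ.1
    gcongr
  have m2 : bb q a θ2 ≤ bb q a θ := by
    unfold bb
    have := hθ.2
    gcongr
  rw [abs_le]
  constructor <;> linarith

/-- For every direction there is an arc. -/
theorem exists_a (hp : 0 < p) (hpq : p < q) (θ : ℝ) :
    ∃ a, |bb q a θ| ≤ bmax q ∧ czero p q a (hh θ) = 0 := by
  have hq2 : 2 ≤ q := by omega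
  have hpos := bmax_pos hq2
  have hpi := pi_pos
  set a1 : ℝ := θ + (-bmax q - π / q) / (2 * π) with h1
  set a2 : ℝ := θ + (bmax q - π / q) / (2 * π) with h2
  have e1 : bb q a1 θ = -bmax q := by
    unfold bb; rw [h1]; field_simp; ring
  have e2 : bb q a2 θ = bmax q := by
    unfold bb; rw [h2]; field_simp; ring
  have hle : a1 ≤ a2 := by
    rw [h1, h2]; gcongr; linarith
  have hcont : ContinuousOn (fun a => czero p q a (hh θ)) (Icc a1 a2) :=
    (czero_continuous hp hpq (hh_cont θ) (hh_bound θ)).continuousOn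
  have hmem : (0 : ℝ) ∈ Icc (czero p q a2 (hh θ)) (czero p q a1 (hh θ)) :=
    ⟨(czero_neg hp hpq e2).le, (czero_pos hp hpq e1).le⟩
  obtain ⟨a, ha, hz⟩ := intermediate_value_Icc' hle hcont hmem
  refine ⟨a, ?_, hz⟩
  have m1 : bb q a1 θ ≤ bb q a θ := by
    unfold bb
    have := ha.1
    gcongr
  have m2 : bb q a θ ≤ bb q a2 θ := by
    unfold bb
    have := ha.2
    gcongr
  rw [abs_le]
  constructor <;> linarith

end

end Pool.Agent.H45Sturm
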