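import Pool.Agent.H45Sturm.Dyn

/-! One-sided Lipschitz bounds for the derivative of the sub-action. -/

namespace Pool.Agent.H45Sturm

open Set Filter MeasureTheory

noncomputable section

variable {p q : ℕ} {a : ℝ} {h : ℝ → ℝ} {K C : ℝ}

lemma fract_neg_of_nonpos {t : ℝ} (h0 : t ≤ 0) (h1 : -1 < t) : Int.fract (-t) = -t := by
  rw [Int.fract_eq_self]
  constructor <;> linarith

lemma fract_neg_of_pos {t : ℝ} (h0 : 0 < t) (h1 : t ≤ 1) : Int.fract (-t) = 1 - t := by
  have : Int.fract (-t) = Int.fract (-t + 1) := by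
    rw [Int.fract_add_one]
  rw [this, Int.fract_eq_self.2 ⟨by linarith, by linarith⟩]
  ring

lemma delta_step (hp : 0 < p) (hpq : p < q) (hK : ∀ x, |h x| ≤ K) (hC : 0 ≤ C)
    (h1 : ∀ u ∈ Ico a (a + 1 / q), ∀ v ∈ Ico a (a + 1 / q), v ≤ u → h v - h u ≤ C * (u - v))
    (h2 : ∀ u ∈ Ico a (a + 1 / q), ∀ v ∈ Ico a (a + 1 / q), u < v →
      h v - h u ≤ C * (1 / (q * (1 + (p : ℝ) / q)) - (v - u))) (N : ℕ) :
    ∀ u ∈ Ico a (a + 1 / (q : ℝ)), ∀ v ∈ Ico a (a + 1 / (q : ℝ)),
      (h v + gsum p q a h v) - (h u + gsum p q a h u) ≤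
        C / (1 - ((p : ℝ) / q) ^ 2) * (Int.fract (-(q * (v - u))) / q) +
          ((p : ℝ) / q) ^ N * (2 * (K + (p : ℝ) / q * K * (1 - (p : ℝ) / q)⁻¹)) := by
  have l0 := lam_pos hp hpq
  have l1 := lam_lt hp hpq
  have hq : 0 < q := by omega
  have hq' : (0 : ℝ) < q := by exact_mod_cast hq
  have hp' : (0 : ℝ) < p := by exact_mod_cast hp
  set L : ℝ := (p : ℝ) / q with hL
  have hpL : (p : ℝ) = L * q := by rw [hL]; field_simp
  have hL2 : 0 < 1 - L ^ 2 := by nlinarith
  induction N with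
  | zero =>
    intro u hu v hv
    have e1 := abs_le.1 (hK v)
    have e2 := abs_le.1 (hK u)
    have e3 := abs_le.1 (gsum_bound (a := a) hp hpq hK v)
    have e4 := abs_le.1 (gsum_bound (a := a) hp hpq hK u)
    have e5 : 0 ≤ C / (1 - L ^ 2) * (Int.fract (-(q * (v - u))) / q) := by
      have := Int.fract_nonneg (-((q : ℝ) * (v - u)))
      positivity
    rw [← hL] at e3 e4
    simp only [pow_zero, one_mul]
    linarith [e1.1, e1.2, e2.1, e2.2, e3.1, e3.2, e4.1, e4.2]
  | succ N ih =>
    intro u hu v hv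
    have iu := phi_mem a hq (p := p) u
    have iv := phi_mem a hq (p := p) v
    have ih' := ih _ iu _ iv
    have ef : Int.fract (-((q : ℝ) * (phi p q a v - phi p q a u))) =
        Int.fract (-((p : ℝ) * (v - u))) := by
      have e1 := phi_int a hq (p := p) u
      have e2 := phi_int a hq (p := p) v
      have : -((q : ℝ) * (phi p q a v - phi p q a u)) =
          -((p : ℝ) * (v - u)) +
            ((⌊(p : ℝ) * v - q * a⌋ - ⌊(p : ℝ) * u - q * a⌋ : ℤ) : ℝ) := by
        push_cast
        linarith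
      rw [this, Int.fract_add_intCast]
    rw [ef] at ih'
    have gv := gsum_eq (a := a) hp hpq hK v
    have gu := gsum_eq (a := a) hp hpq hK u
    rw [← hL] at gv gu
    have key : h v - h u + L * (C / (1 - L ^ 2) * (Int.fract (-((p : ℝ) * (v - u))) / q)) ≤
        C / (1 - L ^ 2) * (Int.fract (-((q : ℝ) * (v - u))) / q) := by
      have hd : v - u < 1 / q := by
        have := hu.1; have := hv.2; linarith
      have hd' : -(1 / (q : ℝ)) < v - u := by
        have := hv.1; have := hu.2; linarith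
      have hqd : (q : ℝ) * (v - u) < 1 := by
        rw [lt_div_iff₀ hq'] at hd; linarith
      have hqd' : -1 < (q : ℝ) * (v - u) := by
        have : -(1 / (q : ℝ)) * q < (v - u) * q := by gcongr
        have e : -(1 / (q : ℝ)) * q = -1 := by field_simp
        linarith
      rcases le_or_gt (v - u) 0 with hle | hgt
      · have f1 : Int.fract (-((q : ℝ) * (v - u))) = -((q : ℝ) * (v - u)) := by
          apply fract_neg_of_nonpos
          · exact mul_nonpos_of_nonneg_of_nonpos hq'.le hle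
          · exact hqd'
        have f2 : Int.fract (-((p : ℝ) * (v - u))) = -((p : ℝ) * (v - u)) := by
          apply fract_neg_of_nonpos
          · exact mul_nonpos_of_nonneg_of_nonpos hp'.le hle
          · rw [hpL]; nlinarith
        rw [f1, f2, hpL]
        have e := h1 u hu v hv (by linarith)
        have : C / (1 - L ^ 2) * (-((q : ℝ) * (v - u)) / q) -
            L * (C / (1 - L ^ 2) * (-(L * q * (v - u)) / q)) = C * (u - v) := by
          field_simp
          ring
        linarith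
      · have hqpos : 0 < (q : ℝ) * (v - u) := mul_pos hq' hgt
        have f1 : Int.fract (-((q : ℝ) * (v - u))) = 1 - (q : ℝ) * (v - u) :=
          fract_neg_of_pos hqpos hqd.le
        have f2 : Int.fract (-((p : ℝ) * (v - u))) = 1 - (p : ℝ) * (v - u) := by
          apply fract_neg_of_pos (mul_pos hp' hgt)
          rw [hpL]; nlinarith
        rw [f1, f2, hpL]
        have e := h2 u hu v hv (by linarith)
        have hL1 : 0 < 1 + L := by linarith
        have : C / (1 - L ^ 2) * ((1 - (q : ℝ) * (v - u)) / q) -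
            L * (C / (1 - L ^ 2) * ((1 - L * q * (v - u)) / q)) =
              C * (1 / (q * (1 + L)) - (v - u)) := by
          have h1L : (1 - L) ≠ 0 := by
            have : 0 < 1 - L := by linarith
            exact this.ne'
          have : 1 - L ^ 2 = (1 - L) * (1 + L) := by ring
          rw [this]
          field_simp
          ring
        linarith
    have : h v + gsum p q a h v - (h u + gsum p q a h u) =
        h v - h u + L * ((h (phi p q a v) + gsum p q a h (phi p q a v)) -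
          (h (phi p q a u) + gsum p q a h (phi p q a u))) := by
      rw [gv, gu]; ring
    rw [this]
    have := mul_le_mul_of_nonneg_left ih' l0.le
    have e6 : L ^ (N + 1) = L ^ N * L := pow_succ _ _
    rw [e6]
    linarith

lemma delta_le (hp : 0 < p) (hpq : p < q) (hK : ∀ x, |h x| ≤ K) (hC : 0 ≤ C)
    (h1 : ∀ u ∈ Ico a (a + 1 / q), ∀ v ∈ Ico a (a + 1 / q), v ≤ u → h v - h u ≤ C * (u - v))
    (h2 : ∀ u ∈ Ico a (a + 1 / q), ∀ v ∈ Ico a (a + 1 / q), u < v →
      h v - h u ≤ C * (1 / (q * (1 + (p : ℝ) / q)) - (v - u)))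
    {u v : ℝ} (hu : u ∈ Ico a (a + 1 / (q : ℝ))) (hv : v ∈ Ico a (a + 1 / (q : ℝ))) :
      (h v + gsum p q a h v) - (h u + gsum p q a h u) ≤
        C / (1 - ((p : ℝ) / q) ^ 2) * (Int.fract (-(q * (v - u))) / q) := by
  have l0 := lam_pos hp hpq
  have l1 := lam_lt hp hpq
  have lim : Tendsto (fun N : ℕ => C / (1 - ((p : ℝ) / q) ^ 2) *
      (Int.fract (-((q : ℝ) * (v - u))) / q) +
          ((p : ℝ) / q) ^ N * (2 * (K + (p : ℝ) / q * K * (1 - (p : ℝ) / q)⁻¹))) atTop
      (nhds (C / (1 - ((p : ℝ) / q) ^ 2) * (Int.fract (-((q : ℝ) * (v - u))) / q) + 0 *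
        (2 * (K + (p : ℝ) / q * K * (1 - (p : ℝ) / q)⁻¹)))) :=
    tendsto_const_nhds.add ((tendsto_pow_atTop_nhds_zero_of_lt_one l0.le l1).mul_const _)
  rw [zero_mul, add_zero] at lim
  exact ge_of_tendsto' lim fun N => delta_step hp hpq hK hC h1 h2 N u hu v hv

/-- Lemma A. -/
lemma gsum_diff_le (hp : 0 < p) (hpq : p < q) (hK : ∀ x, |h x| ≤ K) (hC : 0 ≤ C)
    (h1 : ∀ u ∈ Ico a (a + 1 / q), ∀ v ∈ Ico a (a + 1 / q), v ≤ u → h v - h u ≤ C * (u - v))
    (h2 : ∀ u ∈ Ico a (a + 1 / q), ∀ v ∈ Ico a (a + 1 / q), u < v →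
      h v - h u ≤ C * (1 / (q * (1 + (p : ℝ) / q)) - (v - u))) (x t : ℝ) :
    gsum p q a h (x + t) - gsum p q a h x ≤
      C * ((p : ℝ) / q) / (q * (1 - ((p : ℝ) / q) ^ 2)) * Int.fract (-(p * t)) := by
  have l0 := lam_pos hp hpq
  have l1 := lam_lt hp hpq
  have hq : 0 < q := by omega
  have hq' : (0 : ℝ) < q := by exact_mod_cast hq
  have key := delta_le hp hpq hK hC h1 h2 (phi_mem a hq (p := p) x) (phi_mem a hq (p := p) (x + t))
  have ef : Int.fract (-((q : ℝ) * (phi p q a (x + t) - phi p q a x))) =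
      Int.fract (-((p : ℝ) * t)) := by
    have e1 := phi_int a hq (p := p) x
    have e2 := phi_int a hq (p := p) (x + t)
    have : -((q : ℝ) * (phi p q a (x + t) - phi p q a x)) =
        -((p : ℝ) * t) +
          ((⌊(p : ℝ) * (x + t) - q * a⌋ - ⌊(p : ℝ) * x - q * a⌋ : ℤ) : ℝ) := by
      push_cast
      linarith
    rw [this, Int.fract_add_intCast]
  rw [ef] at key
  rw [gsum_eq (a := a) hp hpq hK (x + t), gsum_eq (a := a) hp hpq hK x]
  have hL2 : 0 < 1 - ((p : ℝ) / q) ^ 2 := by nlinarith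
  have := mul_le_mul_of_nonneg_left key l0.le
  calc _ = (p : ℝ) / q * (h (phi p q a (x + t)) + gsum p q a h (phi p q a (x + t)) -
        (h (phi p q a x) + gsum p q a h (phi p q a x))) := by ring
    _ ≤ _ := this
    _ = _ := by field_simp

end

end Pool.Agent.H45Sturm
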