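import Pool.Agent.H45Sturm.Cos

/-! The strict inequality off the arc. -/

namespace Pool.Agent.H45Sturm

open Real Set Filter MeasureTheory

noncomputable section

variable {p q : ℕ} {a θ : ℝ}

/-- Abbreviation for the sub-action of the cosine. -/
abbrev PP (p q : ℕ) (a θ : ℝ) : ℝ → ℝ := psi p q a (hh θ)

section

variable (D : Data p q a (ff θ) (hh θ) (2 * π) (4 * π ^ 2))

include D

lemma const_eq : 4 * π ^ 2 * ((p : ℝ) / q) ^ 2 / (1 - ((p : ℝ) / q) ^ 2) / 2 * (1 / q) *
    (1 / p - 1 / q) = 2 * (π / q) ^ 2 * ((p : ℝ) / (p + q)) := by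
  have hp' := D.hp'
  have hq' := D.hq'
  have hpq : (p : ℝ) < q := by exact_mod_cast D.hpq
  have h1 : (q : ℝ) - p ≠ 0 := by
    have : 0 < (q : ℝ) - p := by linarith
    exact this.ne'
  have h2 : (p : ℝ) + q ≠ 0 := by positivity
  have e : 1 - ((p : ℝ) / q) ^ 2 = (q - p) * (p + q) / q ^ 2 := by
    field_simp
    ring
  rw [e]
  field_simp
  ring

lemma kappa_eq : 4 * π ^ 2 * ((p : ℝ) / q) / (q * (1 + (p : ℝ) / q)) =
    4 * π * (π / q) * ((p : ℝ) / (p + q)) := by
  have hp' := D.hp'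
  have hq' := D.hq'
  have h2 : (p : ℝ) + q ≠ 0 := by positivity
  have h3 : (q : ℝ) + p ≠ 0 := by positivity
  field_simp
  ring

lemma T2_up (y : ℝ) : PP p q a θ (y + 1 / q) - PP p q a θ y ≤
    (p : ℝ) / q * czero p q a (hh θ) + 2 * (π / q) ^ 2 * ((p : ℝ) / (p + q)) := by
  have hp' := D.hp'
  have hq' := D.hq'
  have hpq : (p : ℝ) < q := by exact_mod_cast D.hpq
  rw [D.psi_sub]
  have := D.int_le (y := y) (L := 1 / q) (by positivity) (by gcongr)
  rw [const_eq D] at this
  have e : 1 / (q : ℝ) * p = p / q := by ring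
  rw [e] at this
  exact this

lemma T2_lo (y : ℝ) : (p : ℝ) / q * czero p q a (hh θ) - 2 * (π / q) ^ 2 * ((p : ℝ) / (p + q)) ≤
    PP p q a θ (y + 1 / q) - PP p q a θ y := by
  have hp' := D.hp'
  have hq' := D.hq'
  have hpq : (p : ℝ) < q := by exact_mod_cast D.hpq
  rw [D.psi_sub]
  have := D.le_int (y := y) (L := 1 / q) (by positivity) (by gcongr)
  rw [const_eq D] at this
  have e : 1 / (q : ℝ) * p = p / q := by ring
  rw [e] at this
  exact this

lemma T1 (y1 y2 : ℝ) (h : y1 ≤ y2) :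
    (PP p q a θ (y2 + 1 / q) - PP p q a θ y2) - (PP p q a θ (y1 + 1 / q) - PP p q a θ y1) ≤
      4 * π * (π / q) * ((p : ℝ) / (p + q)) * (y2 - y1) := by
  have := D.psi_diff y1 y2 h
  rwa [kappa_eq D] at this

lemma czero_relation : czero p q a (hh θ) =
    -(2 * sin (bb q a θ) * sin (π / q)) + (PP p q a θ (a + 1 / q) - PP p q a θ a) := by
  have h1 := D.czero_eq
  have h2 := ff_delta (a := a) (θ := θ) D.hq
  linarith

lemma fwd_sum {s : ℝ} (hs : 0 ≤ s) (k : ℕ) :
    PP p q a θ (a + s + k / q) - PP p q a θ (a + s) ≤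
      k * (PP p q a θ (a + 1 / q) - PP p q a θ a) +
      2 * (π / q) * ((p : ℝ) / (p + q)) * (k * (2 * π * s + (k - 1) * (π / q))) := by
  induction k with
  | zero => simp
  | succ k ih =>
    have hq' := D.hq'
    have := T1 D a (a + s + k / q) (by
      have : 0 ≤ (k : ℝ) / q := by positivity
      linarith)
    have e : a + s + ((k + 1 : ℕ) : ℝ) / q = a + s + k / q + 1 / q := by
      push_cast; ring
    rw [e]
    have e2 : 4 * π * (π / q) * ((p : ℝ) / (p + q)) * (a + s + k / q - a) =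
        2 * (π / q) * ((p : ℝ) / (p + q)) * (2 * π * s + 2 * k * (π / q)) := by
      field_simp
      ring
    rw [e2] at this
    push_cast
    nlinarith

lemma bwd_sum {s : ℝ} (hs : 0 ≤ s) (k : ℕ) :
    PP p q a θ (a + 1 / q - s - k / q) - PP p q a θ (a + 1 / q - s) ≤
      -(k * (PP p q a θ (a + 1 / q) - PP p q a θ a)) +
      2 * (π / q) * ((p : ℝ) / (p + q)) * (k * (2 * π * s + (k - 1) * (π / q))) := by
  induction k with
  | zero => simp
  | succ k ih =>
    have hq' := D.hq'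
    have := T1 D (a - s - k / q) a (by
      have : 0 ≤ (k : ℝ) / q := by positivity
      linarith)
    have e : a + 1 / q - s - ((k + 1 : ℕ) : ℝ) / q = a - s - k / q := by
      push_cast; ring
    have e' : a - s - k / q + 1 / q = a + 1 / q - s - k / q := by ring
    rw [e]
    rw [e'] at this
    have e2 : 4 * π * (π / q) * ((p : ℝ) / (p + q)) * (a - (a - s - k / q)) =
        2 * (π / q) * ((p : ℝ) / (p + q)) * (2 * π * s + 2 * k * (π / q)) := by
      field_simp
      ring
    rw [e2] at this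
    push_cast
    nlinarith

end

section zero

variable (D : Data p q a (ff θ) (hh θ) (2 * π) (4 * π ^ 2)) (h0 : czero p q a (hh θ) = 0)

include D h0

lemma delta_eq : PP p q a θ (a + 1 / q) - PP p q a θ a = 2 * sin (bb q a θ) * sin (π / q) := by
  have := czero_relation D
  linarith

lemma T2_abs (y : ℝ) : |PP p q a θ (y + 1 / q) - PP p q a θ y| ≤
    2 * (π / q) ^ 2 * ((p : ℝ) / (p + q)) := by
  have h1 := T2_up D y
  have h2 := T2_lo D y
  rw [h0, mul_zero] at h1 h2
  rw [abs_le]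
  constructor <;> linarith

lemma bb_small : |sin (bb q a θ) * sin (π / q)| ≤ (p : ℝ) / (p + q) * (π / q) ^ 2 := by
  have h1 := T2_abs D h0 a
  rw [delta_eq D h0] at h1
  have e : 2 * sin (bb q a θ) * sin (π / q) = 2 * (sin (bb q a θ) * sin (π / q)) := by ring
  rw [e, abs_mul, abs_of_pos (by norm_num : (0 : ℝ) < 2)] at h1
  linarith

lemma T2_fwd (y : ℝ) (k : ℕ) : PP p q a θ (y + k / q) - PP p q a θ y ≤
    k * (2 * (π / q) ^ 2 * ((p : ℝ) / (p + q))) := by
  induction k with
  | zero => simp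
  | succ k ih =>
    have := (abs_le.1 (T2_abs D h0 (y + k / q))).2
    have e : y + ((k + 1 : ℕ) : ℝ) / q = y + k / q + 1 / q := by push_cast; ring
    rw [e]
    push_cast
    linarith

lemma T2_bwd (y : ℝ) (k : ℕ) : PP p q a θ (y - k / q) - PP p q a θ y ≤
    k * (2 * (π / q) ^ 2 * ((p : ℝ) / (p + q))) := by
  induction k with
  | zero => simp
  | succ k ih =>
    have := (abs_le.1 (T2_abs D h0 (y - ((k + 1 : ℕ) : ℝ) / q))).1
    have e : y - ((k + 1 : ℕ) : ℝ) / q + 1 / q = y - k / q := by push_cast; ring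
    rw [e] at this
    push_cast at *
    linarith

lemma osc (hq4 : q = 4) (y z : ℝ) : PP p q a θ z - PP p q a θ y ≤ π ^ 2 / 14 := by
  have hp' := D.hp'
  have hq' := D.hq'
  set L : ℝ := Int.fract ((z - y) * p) / p with hL
  have hL0 : 0 ≤ L := by
    have := Int.fract_nonneg ((z - y) * p)
    positivity
  have hL1 : L ≤ 1 / p := by
    have := (Int.fract_lt_one ((z - y) * p)).le
    rw [hL]; gcongr
  have ez : z = y + L + (⌊(z - y) * p⌋ : ℤ) / p := by
    have := Int.fract_add_floor ((z - y) * (p : ℝ))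
    calc z = y + (z - y) * p / p := by field_simp; ring
      _ = y + (Int.fract ((z - y) * p) + ⌊(z - y) * p⌋) / p := by rw [this]
      _ = _ := by rw [hL]; ring
  have e1 : PP p q a θ z = PP p q a θ (y + L) := by
    conv_lhs => rw [ez]
    exact D.psi_add_int h0 _ _
  rw [e1, D.psi_sub]
  refine (D.int_le hL0 hL1).trans ?_
  rw [h0, mul_zero, zero_add]
  have hM : 0 ≤ 4 * π ^ 2 * ((p : ℝ) / q) ^ 2 / (1 - ((p : ℝ) / q) ^ 2) / 2 := by
    have l0 := D.l0
    have l1 := D.l1
    have : 0 < 1 - ((p : ℝ) / q) ^ 2 := by nlinarith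
    positivity
  have h4 : L * (1 / p - L) ≤ (1 / p) ^ 2 / 4 := by nlinarith [sq_nonneg (L - 1 / p / 2)]
  have h5 := mul_le_mul_of_nonneg_left h4 hM
  rw [← mul_assoc] at h5
  refine h5.trans ?_
  have hpi := pi_pos
  have h6 : 4 * π ^ 2 * ((p : ℝ) / q) ^ 2 / (1 - ((p : ℝ) / q) ^ 2) / 2 * ((1 / p) ^ 2 / 4) =
      π ^ 2 * (1 / 2 / (16 - p ^ 2)) := by
    subst hq4
    have hp3 : p < 4 := D.hpq
    have hp0 := D.hp
    interval_cases p <;> norm_num <;> ring
  rw [h6]
  subst hq4
  have hp3 : p < 4 := D.hpq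
  have hp0 := D.hp
  have : π ^ 2 / 14 = π ^ 2 * (1 / 14) := by ring
  rw [this]
  refine mul_le_mul_of_nonneg_left ?_ (by positivity)
  interval_cases p <;> norm_num

lemma t3_fwd (hq3 : q = 3) {s : ℝ} (hs : s ≤ 1 / q) :
    PP p q a θ (a + s + 1 / q) - PP p q a θ (a + s) ≤
      -(2 * sin (bb q a θ) * sin (π / q)) +
        2 * (π / q) * ((p : ℝ) / (p + q)) * (2 * (π / q) - 2 * π * s) +
          2 * (π / q) ^ 2 * ((p : ℝ) / (p + q)) := by
  have hq' := D.hq'
  have h1 := T1 D (a + s - 1 / q) a (by linarith)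
  have h2 := (abs_le.1 (T2_abs D h0 (a + s + 1 / q))).1
  rw [delta_eq D h0] at h1
  have h3 := D.psi_add_one h0 (a + s - 1 / q)
  have e1 : a + s - 1 / q + 1 = a + s + 1 / q + 1 / q := by subst hq3; push_cast; ring
  have e2 : a + s - 1 / q + 1 / q = a + s := by ring
  rw [e1] at h3
  rw [e2] at h1
  have e3 : 4 * π * (π / q) * ((p : ℝ) / (p + q)) * (a - (a + s - 1 / q)) =
      2 * (π / q) * ((p : ℝ) / (p + q)) * (2 * (π / q) - 2 * π * s) := by
    field_simp
    ring
  rw [e3] at h1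
  have h3' : PP p q a θ (a + s + 1 / q + 1 / q) = PP p q a θ (a + s - 1 / q) := h3
  linarith

lemma t3_bwd (hq3 : q = 3) {s : ℝ} (hs : s ≤ 1 / q) :
    PP p q a θ (a + 1 / q - s - 1 / q) - PP p q a θ (a + 1 / q - s) ≤
      (2 * sin (bb q a θ) * sin (π / q)) +
        2 * (π / q) * ((p : ℝ) / (p + q)) * (2 * (π / q) - 2 * π * s) +
          2 * (π / q) ^ 2 * ((p : ℝ) / (p + q)) := by
  have hq' := D.hq'
  have h1 := T1 D a (a + 1 / q - s) (by linarith)
  have h2 := (abs_le.1 (T2_abs D h0 (a + 1 / q - s + 1 / q))).2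
  rw [delta_eq D h0] at h1
  have h3 := D.psi_add_one h0 (a + 1 / q - s - 1 / q)
  have e1 : a + 1 / q - s - 1 / q + 1 = a + 1 / q - s + 1 / q + 1 / q := by
    subst hq3; push_cast; ring
  rw [e1] at h3
  have e3 : 4 * π * (π / q) * ((p : ℝ) / (p + q)) * (a + 1 / q - s - a) =
      2 * (π / q) * ((p : ℝ) / (p + q)) * (2 * (π / q) - 2 * π * s) := by
    field_simp
    ring
  rw [e3] at h1
  have h3' : PP p q a θ (a + 1 / q - s + 1 / q + 1 / q) = PP p q a θ (a + 1 / q - s - 1 / q) := h3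
  linarith

lemma t5_fwd (hq2 : q = 2) {s : ℝ} (hs : s ≤ 1 / q) :
    PP p q a θ (a + s + 1 / q) - PP p q a θ (a + s) ≤
      -(2 * sin (bb q a θ) * sin (π / q)) +
        2 * (π / q) * ((p : ℝ) / (p + q)) * (2 * (π / q) - 2 * π * s) := by
  have hq' := D.hq'
  have h1 := T1 D (a + s - 1 / q) a (by linarith)
  rw [delta_eq D h0] at h1
  have h3 := D.psi_add_one h0 (a + s - 1 / q)
  have e1 : a + s - 1 / q + 1 = a + s + 1 / q := by subst hq2; push_cast; ring
  have e2 : a + s - 1 / q + 1 / q = a + s := by ring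
  rw [e1] at h3
  rw [e2] at h1
  have e3 : 4 * π * (π / q) * ((p : ℝ) / (p + q)) * (a - (a + s - 1 / q)) =
      2 * (π / q) * ((p : ℝ) / (p + q)) * (2 * (π / q) - 2 * π * s) := by
    field_simp
    ring
  rw [e3] at h1
  have h3' : PP p q a θ (a + s + 1 / q) = PP p q a θ (a + s - 1 / q) := h3
  linarith

lemma t5_bwd (hq2 : q = 2) {s : ℝ} (hs : s ≤ 1 / q) :
    PP p q a θ (a + 1 / q - s - 1 / q) - PP p q a θ (a + 1 / q - s) ≤
      (2 * sin (bb q a θ) * sin (π / q)) +
        2 * (π / q) * ((p : ℝ) / (p + q)) * (2 * (π / q) - 2 * π * s) := by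
  have hq' := D.hq'
  have h1 := T1 D a (a + 1 / q - s) (by linarith)
  rw [delta_eq D h0] at h1
  have h3 := D.psi_add_one h0 (a + 1 / q - s - 1 / q)
  have e1 : a + 1 / q - s - 1 / q + 1 = a + 1 / q - s + 1 / q := by
    subst hq2; push_cast; ring
  rw [e1] at h3
  have e3 : 4 * π * (π / q) * ((p : ℝ) / (p + q)) * (a + 1 / q - s - a) =
      2 * (π / q) * ((p : ℝ) / (p + q)) * (2 * (π / q) - 2 * π * s) := by
    field_simp
    ring
  rw [e3] at h1
  have h3' : PP p q a θ (a + 1 / q - s + 1 / q) = PP p q a θ (a + 1 / q - s - 1 / q) := h3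
  linarith

theorem fwd_lt (hb : |bb q a θ| ≤ bmax q) {s : ℝ} (hs0 : 0 ≤ s) (hs1 : s ≤ 1 / q) {k : ℕ}
    (hk : 1 ≤ k) (hkq : 2 * k ≤ q) (hk1 : k = 1 → 0 < s) (hq2 : q = 2 → s < 1 / q) :
    ff θ (a + s + k / q) + PP p q a θ (a + s + k / q) < ff θ (a + s) + PP p q a θ (a + s) := by
  have hpi := pi_pos
  have hq' := D.hq'
  have hcq : 2 * π * (1 / q) = 2 * (π / q) := by ring
  have ht1 : 2 * π * s ≤ 2 * (π / q) := by
    rw [← hcq]; gcongr
  have key := num_all D.hp D.hpq hk hkq (b := bb q a θ) (t := 2 * π * s)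
    (Δ := PP p q a θ (a + s + k / q) - PP p q a θ (a + s)) hb (bb_small D h0) (by positivity) ht1
    (fun h => by have := hk1 h; positivity)
    (fun h => by
      have := hq2 h
      have h2 : 2 * π * s < 2 * π * (1 / q) := by gcongr
      rw [h] at h2
      push_cast at h2
      linarith)
    (by have := fwd_sum D hs0 k; rwa [delta_eq D h0] at this)
    (T2_fwd D h0 _ _)
    (fun h => by
      have hk1 : k = 1 := by omega
      subst hk1
      have := t3_fwd D h0 h hs1
      push_cast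
      exact this)
    (fun h => osc D h0 h _ _)
    (fun h => by
      have hk1 : k = 1 := by omega
      subst hk1
      have := t5_fwd D h0 h hs1
      push_cast
      exact this)
  rw [← ff_fwd D.hq] at key
  linarith

theorem bwd_lt (hb : |bb q a θ| ≤ bmax q) {s : ℝ} (hs0 : 0 ≤ s) (hs1 : s ≤ 1 / q) {k : ℕ}
    (hk : 1 ≤ k) (hkq : 2 * k ≤ q) (hk1 : k = 1 → 0 < s) (hq2 : q = 2 → s < 1 / q) :
    ff θ (a + 1 / q - s - k / q) + PP p q a θ (a + 1 / q - s - k / q) <
      ff θ (a + 1 / q - s) + PP p q a θ (a + 1 / q - s) := by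
  have hpi := pi_pos
  have hq' := D.hq'
  have hcq : 2 * π * (1 / q) = 2 * (π / q) := by ring
  have ht1 : 2 * π * s ≤ 2 * (π / q) := by
    rw [← hcq]; gcongr
  have key := num_all D.hp D.hpq hk hkq (b := -bb q a θ) (t := 2 * π * s)
    (Δ := PP p q a θ (a + 1 / q - s - k / q) - PP p q a θ (a + 1 / q - s))
    (by rwa [abs_neg]) (by rw [sin_neg, neg_mul, abs_neg]; exact bb_small D h0)
    (by positivity) ht1
    (fun h => by have := hk1 h; positivity)
    (fun h => by
      have := hq2 h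
      have h2 : 2 * π * s < 2 * π * (1 / q) := by gcongr
      rw [h] at h2
      push_cast at h2
      linarith)
    (by
      have := bwd_sum D hs0 k
      rw [delta_eq D h0] at this
      rw [sin_neg]
      linarith)
    (T2_bwd D h0 _ _)
    (fun h => by
      have hk1 : k = 1 := by omega
      subst hk1
      have := t3_bwd D h0 h hs1
      push_cast
      rw [sin_neg]
      linarith)
    (fun h => osc D h0 h _ _)
    (fun h => by
      have hk1 : k = 1 := by omega
      subst hk1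
      have := t5_bwd D h0 h hs1
      push_cast
      rw [sin_neg]
      linarith)
  rw [← ff_bwd D.hq] at key
  linarith

end zero

end

end Pool.Agent.H45Sturm
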