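import Mathlib

/-! Elementary trigonometric inequalities. -/

namespace Pool.Agent.H45Sturm

open Real Set

lemma sin_pos_of {c : ℝ} (h0 : 0 < c) (h1 : c ≤ π / 2) : 0 < sin c :=
  sin_pos_of_pos_of_lt_pi h0 (by linarith [pi_pos])

/-- The core estimate. -/
lemma n1core {c r b t : ℝ} (hc0 : 0 < c) (hc1 : c ≤ π / 2) (hr : 0 < r)
    (hQ : r ^ 2 * c ^ 2 * (1 + c ^ 2) < sin c ^ 2) (hb : |sin b * sin c| ≤ r * c ^ 2)
    (hbm : -(π / 2) ≤ b) (ht : 0 < t) (hbt : b + t ≤ π / 2)
    (hs : sin (b + t) * sin c ≤ r * c ^ 2) :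
    0 < 2 * sin c * sin (b + t) - 2 * sin b * sin c - 2 * c * r * t := by
  have hsc := sin_pos_of hc0 hc1
  obtain ⟨x, hx, hx'⟩ := exists_hasDerivAt_eq_slope sin cos (show b < b + t by linarith)
    continuous_sin.continuousOn (fun x _ => hasDerivAt_sin x)
  have e1 : sin (b + t) - sin b = t * cos x := by
    rw [show b + t - b = t by ring, eq_div_iff ht.ne'] at hx'
    linarith
  have m1 : sin x ≤ sin (b + t) :=
    sin_le_sin_of_le_of_le_pi_div_two (by linarith [hx.1]) hbt hx.2.le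
  have m2 : sin b ≤ sin x :=
    sin_le_sin_of_le_of_le_pi_div_two hbm (by linarith [hx.2]) hx.1.le
  have hcx : 0 ≤ cos x := cos_nonneg_of_mem_Icc ⟨by linarith [hx.1], by linarith [hx.2]⟩
  have hb' := abs_le.1 hb
  have k1 : sin x * sin c ≤ r * c ^ 2 := by nlinarith
  have k2 : -(r * c ^ 2) ≤ sin x * sin c := by nlinarith
  have k3 : (sin x * sin c) ^ 2 ≤ (r * c ^ 2) ^ 2 := by
    rw [sq_le_sq]
    rw [abs_of_nonneg (show 0 ≤ r * c ^ 2 by positivity)]
    exact abs_le.2 ⟨k2, k1⟩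
  have k4 : (r * c) ^ 2 < (cos x * sin c) ^ 2 := by
    have := sin_sq_add_cos_sq x
    have e : (cos x * sin c) ^ 2 = sin c ^ 2 - (sin x * sin c) ^ 2 := by
      have : cos x ^ 2 = 1 - sin x ^ 2 := by linarith
      rw [mul_pow, this]; ring
    rw [e]
    nlinarith
  have k5 : r * c < cos x * sin c := lt_of_pow_lt_pow_left₀ 2 (by positivity) k4
  have e2 : 2 * sin c * sin (b + t) - 2 * sin b * sin c - 2 * c * r * t =
      2 * t * (cos x * sin c - r * c) := by
    have : sin (b + t) = sin b + t * cos x := by linarith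
    rw [this]; ring
  rw [e2]
  have : 0 < cos x * sin c - r * c := by linarith
  positivity

lemma numQ {c r : ℝ} (hc0 : 0 < c) (hc1 : c ≤ π / 3) (hr : 0 < r) (hr1 : r < 1 / 2) :
    r ^ 2 * c ^ 2 * (1 + c ^ 2) < sin c ^ 2 := by
  have hpi := pi_lt_d2
  have hc2 : c < 1.05 := by linarith
  have h1 : c - c ^ 3 / 6 ≤ sin c := sin_ge_sub_cube hc0.le
  have hcc : c ^ 2 < 1.1025 := by nlinarith
  have h2 : 0 < c - c ^ 3 / 6 := by
    have : c - c ^ 3 / 6 = c * (1 - c ^ 2 / 6) := by ring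
    rw [this]
    have : 0 < 1 - c ^ 2 / 6 := by linarith
    positivity
  have h3 : (c - c ^ 3 / 6) ^ 2 ≤ sin c ^ 2 := by gcongr
  have h4 : r ^ 2 < 1 / 4 := by nlinarith
  have h5 : (1 + c ^ 2) / 4 < (1 - c ^ 2 / 6) ^ 2 := by nlinarith
  have e : (c - c ^ 3 / 6) ^ 2 = c ^ 2 * (1 - c ^ 2 / 6) ^ 2 := by ring
  rw [e] at h3
  have hc3 : 0 < c ^ 2 := by positivity
  calc r ^ 2 * c ^ 2 * (1 + c ^ 2) < 1 / 4 * c ^ 2 * (1 + c ^ 2) := by gcongr
    _ = c ^ 2 * ((1 + c ^ 2) / 4) := by ring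
    _ < c ^ 2 * (1 - c ^ 2 / 6) ^ 2 := by gcongr
    _ ≤ _ := h3

lemma num_one_ge4 {c r b t : ℝ} (hc0 : 0 < c) (hc1 : c ≤ π / 4) (hr : 0 < r) (hr1 : r < 1 / 2)
    (hb : |sin b * sin c| ≤ r * c ^ 2) (hbm : |b| ≤ c / 2) (ht : 0 < t) (ht2 : t ≤ 2 * c) :
    0 < 2 * sin c * sin (b + t) - 2 * sin b * sin c - 2 * c * r * t ∨
      0 < 2 * sin c * sin (b + t) - 2 * c ^ 2 * r := by
  have hpi := pi_pos
  have hb' := abs_le.1 hbm
  rcases lt_or_ge (r * c ^ 2) (sin (b + t) * sin c) with h | h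
  · right; linarith
  · left
    rcases le_or_gt (b + t) (π / 2) with h' | h'
    · exact n1core hc0 (by linarith) hr (numQ hc0 (by linarith) hr hr1) hb (by linarith) ht h' h
    · exfalso
      have hpi2 := pi_lt_d2
      have hc2 : c < 0.7875 := by linarith
      have e1 : sin (b + t) = cos (b + t - π / 2) := by
        rw [← sin_add_pi_div_two, sub_add_cancel]
      have e2 : 1 - (b + t - π / 2) ^ 2 / 2 ≤ sin (b + t) := by
        rw [e1]; exact one_sub_sq_div_two_le_cos
      have e3 : b + t - π / 2 ≤ π / 8 := by linarith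
      have e4 : (b + t - π / 2) ^ 2 ≤ (π / 8) ^ 2 := by
        have : 0 ≤ b + t - π / 2 := by linarith
        gcongr
      have e5 : 0.9 ≤ sin (b + t) := by nlinarith
      have h1 : c - c ^ 3 / 6 ≤ sin c := sin_ge_sub_cube hc0.le
      have hcc : c ^ 2 < 0.63 := by nlinarith
      have h6 : 0.89 * c ≤ sin c := by nlinarith
      have : 0.9 * (0.89 * c) ≤ sin (b + t) * sin c := by gcongr
      nlinarith

lemma num_one_3 {r b t : ℝ} (hr : 0 < r) (hr1 : r ≤ 2 / 5)
    (hb : |sin b * sin (π / 3)| ≤ r * (π / 3) ^ 2) (hbm : |b| ≤ 0.55) (ht : 0 < t)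
    (ht2 : t ≤ 2 * (π / 3)) :
    0 < 2 * sin (π / 3) * sin (b + t) - 2 * sin b * sin (π / 3) - 2 * (π / 3) * r * t ∨
      0 < 2 * sin (π / 3) * sin (b + t) - 2 * (π / 3) ^ 2 * r ∨
      0 < 2 * sin (π / 3) * sin (b + t) + 2 * sin b * sin (π / 3) -
        2 * (π / 3) * r * (2 * (π / 3) - t) - 2 * (π / 3) ^ 2 * r := by
  have hpi := pi_pos
  have hpi1 := pi_gt_d4
  have hpi2 := pi_lt_d4
  have hb' := abs_le.1 hbm
  have hs3 : sin (π / 3) = √3 / 2 := sin_pi_div_three
  have hs3a : (0.866 : ℝ) ≤ sin (π / 3) := by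
    rw [hs3]
    have : (1.732 : ℝ) ≤ √3 := by
      apply Real.le_sqrt_of_sq_le; norm_num
    linarith
  rcases lt_or_ge (r * (π / 3) ^ 2) (sin (b + t) * sin (π / 3)) with h | h
  · right; left; linarith
  rcases le_or_gt (b + t) (π / 2) with h' | h'
  · left
    exact n1core (by positivity) (by linarith) hr
      (numQ (by positivity) le_rfl hr (by linarith)) hb (by linarith) ht h' h
  right; right
  -- `w = π - b - t`
  have hw0 : 0 ≤ π - (b + t) := by linarith
  have hw1 : π - (b + t) ≤ π / 2 := by linarith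
  have j1 : 2 / π * (π - (b + t)) ≤ sin (b + t) := by
    have := mul_le_sin hw0 hw1
    rwa [sin_pi_sub] at this
  have hpp : π ^ 2 ≤ 9.87 := by nlinarith
  have j2 : sin (b + t) ≤ 0.5068 := by
    by_contra hcon
    push Not at hcon
    have : 0.5068 * 0.866 < sin (b + t) * sin (π / 3) := by nlinarith
    nlinarith
  have j3 : π - (b + t) ≤ 0.797 := by
    have : 2 / π * (π - (b + t)) ≤ 0.5068 := j1.trans j2
    rw [div_mul_eq_mul_div, div_le_iff₀ hpi] at this
    nlinarith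
  have j4 : 0.25 ≤ b := by linarith
  have j5 : sin (2 * (π / 3) + b) ≤ sin (b + t) := by
    rw [← sin_pi_sub (b + t), ← sin_pi_sub (2 * (π / 3) + b)]
    apply sin_le_sin_of_le_of_le_pi_div_two <;> linarith
  have j6 : sin (2 * (π / 3) + b) + sin b = sin (π / 3 + b) := by
    have e1 : 2 * (π / 3) + b = (π / 3 + b) + π / 3 := by ring
    have e2 : b = (π / 3 + b) - π / 3 := by ring
    conv_lhs => rw [e1, sin_add]; rw [show sin b = sin ((π / 3 + b) - π / 3) by rw [← e2], sin_sub]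
    rw [cos_pi_div_three]; ring
  have j7 : 0.9 ≤ sin (π / 3 + b) := by
    have e1 : sin (π / 3 + b) = cos (π / 3 + b - π / 2) := by
      rw [← sin_add_pi_div_two, sub_add_cancel]
    rw [e1]
    have := one_sub_sq_div_two_le_cos (x := π / 3 + b - π / 2)
    have k1 : -0.28 ≤ π / 3 + b - π / 2 := by linarith
    have k2 : π / 3 + b - π / 2 ≤ 0.03 := by linarith
    nlinarith
  have j8 : 2 * (π / 3) - t ≤ 0.3 := by linarith
  have j9 : 0 ≤ 2 * (π / 3) - t := by linarith
  have j10 : 2 * (π / 3) * r * (2 * (π / 3) - t) ≤ 2 * (π / 3) * (2 / 5) * 0.3 := by gcongr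
  have j11 : 2 * (π / 3) ^ 2 * r ≤ 2 * (π / 3) ^ 2 * (2 / 5) := by gcongr
  have j12 : 0.866 * 0.9 ≤ sin (π / 3) * (sin (b + t) + sin b) := by
    have : (0.9 : ℝ) ≤ sin (b + t) + sin b := by linarith
    nlinarith
  nlinarith

lemma num_two_ge5 {c r b t : ℝ} (hc0 : 0 < c) (hc1 : c ≤ π / 5) (hr : 0 < r) (hr1 : r < 1 / 2)
    (hbm : |b| ≤ c / 2) (ht : 0 ≤ t) (ht2 : t ≤ 2 * c) :
    0 < 2 * sin (2 * c) * sin (b + t + c) - 2 * 2 * sin b * sin c -
        2 * c * r * 2 * (t + c) ∨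
      0 < 2 * sin (2 * c) * sin (b + t + c) - 2 * c ^ 2 * r * 2 := by
  have hpi := pi_pos
  have hpi2 := pi_lt_d2
  have hb' := abs_le.1 hbm
  have hc2 : c < 0.63 := by linarith
  have hcc : c ^ 2 < 0.3969 := by nlinarith
  have h1 : c - c ^ 3 / 6 ≤ sin c := sin_ge_sub_cube hc0.le
  have hs : 0.93 * c ≤ sin c := by nlinarith
  have hs0 : 0 < sin c := sin_pos_of hc0 (by linarith)
  have hcos : 0.8 ≤ cos c := by
    have := one_sub_sq_div_two_le_cos (x := c)
    nlinarith
  have hR : c ^ 2 / 2 < sin c ^ 2 * cos c := by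
    have : (0.93 * c) ^ 2 ≤ sin c ^ 2 := by gcongr
    have h3 : (0.93 * c) ^ 2 * 0.8 ≤ sin c ^ 2 * cos c := by gcongr
    nlinarith
  have hR' : r * c ^ 2 < sin c ^ 2 * cos c := by nlinarith
  rw [sin_two_mul]
  rcases le_or_gt c (b + t + c) with hY | hY
  · right
    have : sin c ≤ sin (b + t + c) := by
      rcases le_or_gt (b + t + c) (π / 2) with h | h
      · exact sin_le_sin_of_le_of_le_pi_div_two (by linarith) h hY
      · rw [← sin_pi_sub (b + t + c)]
        exact sin_le_sin_of_le_of_le_pi_div_two (by linarith) (by linarith) (by linarith)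
    have h3 : sin c * cos c * sin c ≤ sin c * cos c * sin (b + t + c) := by
      have : 0 ≤ sin c * cos c := by positivity
      gcongr
    nlinarith
  · left
    -- here `b < 0`
    have hYpos : 0 ≤ b + t + c := by linarith
    have hbneg : b < 0 := by linarith
    have conc : ∀ y, 0 ≤ y → y ≤ c → y / c * sin c ≤ sin y := by
      intro y hy0 hy1
      have hcv := (strictConcaveOn_sin_Icc.concaveOn).2 (left_mem_Icc.2 hpi.le)
        (show c ∈ Icc 0 π from ⟨hc0.le, by linarith⟩) (show 0 ≤ 1 - y / c by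
          have : y / c ≤ 1 := by rw [div_le_one hc0]; exact hy1
          linarith) (show 0 ≤ y / c by positivity) (by ring)
      simp only [sin_zero, smul_eq_mul, mul_zero, zero_add] at hcv
      have e : y / c * c = y := by field_simp
      rwa [e] at hcv
    have k1 := conc (b + t + c) hYpos hY.le
    have k2 := conc (-b) (by linarith) (by linarith)
    rw [sin_neg] at k2
    have k3 : cos c ≤ 1 := cos_le_one c
    have hX : t + c = (b + t + c) + (-b) := by ring
    have k4 : sin c * cos c * ((b + t + c) / c * sin c) ≤ sin c * cos c * sin (b + t + c) := by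
      have : 0 ≤ sin c * cos c := by positivity
      gcongr
    have k5 : (-b) / c * sin c * (sin c * cos c) ≤ -sin b * sin c := by
      have h6 : 0 ≤ (-b) / c * sin c := by
        have : 0 ≤ -b := by linarith
        positivity
      calc (-b) / c * sin c * (sin c * cos c) ≤ (-b) / c * sin c * (sin c * 1) := by gcongr
        _ = (-b) / c * sin c * sin c := by ring
        _ ≤ -sin b * sin c := by gcongr
    have k6 : sin c * cos c * ((b + t + c) / c * sin c) + (-b) / c * sin c * (sin c * cos c) =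
        (t + c) / c * (sin c ^ 2 * cos c) := by
      rw [hX]; ring
    have k7 : (t + c) / c * (r * c ^ 2) < (t + c) / c * (sin c ^ 2 * cos c) := by
      have : 0 < (t + c) / c := by positivity
      gcongr
    have k8 : (t + c) / c * (r * c ^ 2) = c * r * (t + c) := by field_simp
    nlinarith

lemma num_two_4 {b t : ℝ} (hbm : |b| ≤ π / 8) (ht : 0 ≤ t) (ht2 : t ≤ 2 * (π / 4)) :
    0 < 2 * sin (2 * (π / 4)) * sin (b + t + π / 4) - π ^ 2 / 14 := by
  have hpi := pi_pos
  have hpi2 := pi_lt_d4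
  have hb' := abs_le.1 hbm
  have e : 2 * (π / 4) = π / 2 := by ring
  rw [e, sin_pi_div_two]
  have h8 : (0.38 : ℝ) ≤ sin (π / 8) := by
    have hpi3 := pi_gt_d4
    have := sin_ge_sub_cube (x := π / 8) (by positivity)
    have h9 : (π / 8) ^ 3 ≤ 0.0607 := by
      have : π / 8 ≤ 0.3928 := by linarith
      calc (π / 8) ^ 3 ≤ (0.3928 : ℝ) ^ 3 := by gcongr
        _ ≤ _ := by norm_num
    linarith
  have : sin (π / 8) ≤ sin (b + t + π / 4) := by
    rcases le_or_gt (b + t + π / 4) (π / 2) with h | h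
    · exact sin_le_sin_of_le_of_le_pi_div_two (by linarith) h (by linarith)
    · rw [← sin_pi_sub (b + t + π / 4)]
      exact sin_le_sin_of_le_of_le_pi_div_two (by linarith) (by linarith) (by linarith)
  nlinarith

lemma num_ge3 {c r b t k : ℝ} (hc0 : 0 < c) (hk : 3 ≤ k) (hkc : k * c ≤ π / 2) (hr : 0 < r)
    (hr1 : r < 1 / 2) (hbm : |b| ≤ c / 2) (ht : 0 ≤ t) (ht2 : t ≤ 2 * c) :
    0 < 2 * sin (k * c) * sin (b + t + (k - 1) * c) - 2 * c ^ 2 * r * k := by
  have hpi := pi_pos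
  have hpi2 := pi_lt_d2
  have hb' := abs_le.1 hbm
  have h1 : 2 / π * (k * c) ≤ sin (k * c) := mul_le_sin (by positivity) hkc
  have hc3 : 3 / 2 * c ≤ π / 2 := by nlinarith
  have h2 : 2 / π * (3 / 2 * c) ≤ sin (b + t + (k - 1) * c) := by
    have hlow : 3 / 2 * c ≤ b + t + (k - 1) * c := by nlinarith
    rcases le_or_gt (b + t + (k - 1) * c) (π / 2) with h | h
    · refine le_trans ?_ (mul_le_sin (by nlinarith) h)
      gcongr
    · have hlow2 : 3 / 2 * c ≤ π - (b + t + (k - 1) * c) := by nlinarith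
      rw [← sin_pi_sub (b + t + (k - 1) * c)]
      refine le_trans ?_ (mul_le_sin (by nlinarith) (by linarith))
      gcongr
  have h3 : 2 / π * (k * c) * (2 / π * (3 / 2 * c)) ≤
      sin (k * c) * sin (b + t + (k - 1) * c) := by
    have h0 : 0 ≤ sin (k * c) := le_trans (by positivity) h1
    gcongr
  have h4 : 2 / π * (k * c) * (2 / π * (3 / 2 * c)) = 6 / π ^ 2 * (k * c ^ 2) := by
    field_simp; ring
  have h5 : 1 / 2 < 6 / π ^ 2 := by
    rw [lt_div_iff₀ (by positivity)]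
    nlinarith
  have h6 : 1 / 2 * (k * c ^ 2) < 6 / π ^ 2 * (k * c ^ 2) := by gcongr
  have h7 : r * (k * c ^ 2) < 1 / 2 * (k * c ^ 2) := by gcongr
  rw [h4] at h3
  nlinarith

/-- The case of the doubling map. -/
lemma num_q2 {b t : ℝ} (hb : |sin b| ≤ π ^ 2 / 12) (hbm : |b| ≤ 1) (ht : 0 < t) (ht2 : t < π) :
    0 < 2 * sin (b + t) - 2 * sin b - π / 3 * t ∨
      0 < 2 * sin (b + t) + 2 * sin b - π / 3 * (π - t) := by
  have hpi := pi_pos
  have hpi1 := pi_gt_d2
  have hpi2 := pi_lt_d2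
  have hb' := abs_le.1 hbm
  have hb2 := abs_le.1 hb
  have hQ : ((1 : ℝ) / 3) ^ 2 * (π / 2) ^ 2 * (1 + (π / 2) ^ 2) < sin (π / 2) ^ 2 := by
    rw [sin_pi_div_two]
    have h1 : π ^ 2 < 9.9225 := by nlinarith
    nlinarith [sq_nonneg (π ^ 2)]
  rcases lt_or_ge (π ^ 2 / 12) (sin (b + t)) with h | h
  · by_contra hcon
    push Not at hcon
    linarith [hcon.1, hcon.2]
  rcases le_or_gt (b + t) (π / 2) with h' | h'
  · left
    have := n1core (c := π / 2) (r := 1 / 3) (b := b) (t := t) (by positivity) le_rfl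
      (by norm_num) hQ (by rw [sin_pi_div_two, mul_one]; linarith) (by linarith) ht h'
      (by rw [sin_pi_div_two, mul_one]; linarith)
    rw [sin_pi_div_two] at this
    linarith
  · right
    have := n1core (c := π / 2) (r := 1 / 3) (b := -b) (t := π - t) (by positivity) le_rfl
      (by norm_num) hQ (by rw [sin_pi_div_two, mul_one, sin_neg, abs_neg]; linarith)
      (by linarith) (by linarith) (by linarith)
      (by rw [sin_pi_div_two, mul_one, show -b + (π - t) = π - (b + t) by ring, sin_pi_sub]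
          linarith)
    rw [sin_pi_div_two, sin_neg, show -b + (π - t) = π - (b + t) by ring, sin_pi_sub] at this
    linarith

end Pool.Agent.H45Sturm
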