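import Pool.Agent.H45Sturm.Transport

/-! Near-optimal periodic measures. -/

namespace Pool.Agent.H45Sturm

open Real Set Filter MeasureTheory Topology

open scoped ENNReal

noncomputable section

variable {p q : ℕ} {a θ : ℝ}

/-- Uniform measure on a finite sequence. -/
def unif {X : Type*} [MeasurableSpace X] (g : ℕ → X) (N : ℕ) : Measure X :=
  (N : ℝ≥0∞)⁻¹ • ∑ l ∈ Finset.range N, Measure.dirac (g l)

section unif

variable {X Y : Type*} [MeasurableSpace X] [MeasurableSpace Y]

lemma unif_prob (g : ℕ → X) {N : ℕ} (hN : 0 < N) : IsProbabilityMeasure (unif g N) := by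
  constructor
  unfold unif
  rw [Measure.smul_apply, Measure.coe_finsetSum, Finset.sum_apply]
  simp only [measure_univ, Finset.sum_const, Finset.card_range, nsmul_eq_mul, mul_one, smul_eq_mul]
  exact ENNReal.inv_mul_cancel (by exact_mod_cast hN.ne') (ENNReal.natCast_ne_top N)

lemma unif_map (g : ℕ → X) (N : ℕ) {f : X → Y} (hf : Measurable f) :
    (unif g N).map f = unif (fun l => f (g l)) N := by
  unfold unif
  rw [Measure.map_smul, Measure.map_finset_sum hf.aemeasurable]
  simp only [Measure.map_dirac' hf]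

lemma unif_shift (g : ℕ → X) {N : ℕ} (h : g N = g 0) : unif (fun l => g (l + 1)) N = unif g N := by
  unfold unif
  congr 1
  have h1 := Finset.sum_range_succ (fun l => Measure.dirac (g l)) N
  have h2 := Finset.sum_range_succ' (fun l => Measure.dirac (g l)) N
  rw [h1, h] at h2
  ext s hs
  have h3 := congrArg (fun μ : Measure X => μ s) h2
  simp only [Measure.add_apply] at h3
  exact ((ENNReal.add_left_inj (measure_ne_top _ s)).1 h3).symm

lemma unif_integral (g : ℕ → X) {N : ℕ} (F : X → ℝ) (hF : StronglyMeasurable F) :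
    ∫ x, F x ∂(unif g N) = (N : ℝ)⁻¹ * ∑ l ∈ Finset.range N, F (g l) := by
  unfold unif
  rw [integral_smul_measure, integral_finsetSum_measure]
  · simp only [integral_dirac' _ _ hF]
    simp
  · intro i _
    refine integrable_dirac' hF ?_
    simp

end unif

/-- The orbit of the left end point. -/
def orb (p q : ℕ) (a : ℝ) (n : ℕ) : ℝ := (phi p q a)^[n] a

lemma orb_succ (n : ℕ) : orb p q a (n + 1) = phi p q a (orb p q a n) := by
  unfold orb; rw [Function.iterate_succ_apply']

lemma orb_mem (hq : 0 < q) (n : ℕ) : orb p q a n ∈ Icc a (a + 1 / q) := by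
  rcases n with _ | n
  · refine ⟨le_rfl, ?_⟩
    have : (0 : ℝ) ≤ 1 / q := by positivity
    change a ≤ _
    linarith
  · rw [orb_succ]
    exact Ico_subset_Icc_self (phi_mem a hq (p := p) _)

lemma close_return (hq : 0 < q) {ε : ℝ} (hε : 0 < ε) :
    ∃ i j : ℕ, i < j ∧ |orb p q a j - orb p q a i| < ε := by
  obtain ⟨y, -, φ, hφ, hlim⟩ := (isCompact_Icc (a := a) (b := a + 1 / (q : ℝ))).tendsto_subseq
    (orb_mem (p := p) (a := a) hq)
  have hc := hlim.cauchySeq
  rw [Metric.cauchySeq_iff] at hc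
  obtain ⟨n, hn⟩ := hc ε hε
  refine ⟨φ n, φ (n + 1), hφ (Nat.lt_succ_self n), ?_⟩
  have := hn (n + 1) (Nat.le_succ n) n le_rfl
  rwa [Real.dist_eq] at this

lemma ff_lip (θ x y : ℝ) : |ff θ x - ff θ y| ≤ 2 * π * |x - y| := by
  have := Convex.norm_image_sub_le_of_norm_hasDerivWithin_le (f := ff θ) (f' := hh θ) (C := 2 * π)
    (s := univ) (x := y) (y := x) (fun z _ => (ff_deriv θ z).hasDerivWithinAt)
    (fun z _ => by rw [Real.norm_eq_abs]; exact hh_bound θ z) convex_univ (mem_univ _) (mem_univ _)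
  simpa only [Real.norm_eq_abs] using this

section

variable (D : Data p q a (ff θ) (hh θ) (2 * π) (4 * π ^ 2))
  (h0 : czero p q a (hh θ) = 0)

include D h0

lemma orb_sum (i N : ℕ) : ∑ l ∈ Finset.range N, ff θ (orb p q a (i + l + 1)) =
    PP p q a θ (orb p q a i) - PP p q a θ (orb p q a (i + N)) + N * betaVal p q a θ := by
  induction N with
  | zero => simp
  | succ N ih =>
    rw [Finset.sum_range_succ, ih]
    have := Hf_phi D h0 (orb p q a (i + N))
    rw [← orb_succ] at this
    unfold Hf at this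
    rw [show i + (N + 1) = i + N + 1 by ring]
    push_cast
    linarith

theorem near_optimal {ε : ℝ} (hε : 0 < ε) :
    ∃ ν : Measure S1, Invariant p q ν ∧ betaVal p q a θ - ε ≤ Lin θ (barycentre ν) := by
  have hp' := D.hp'
  have hq' := D.hq'
  have l0 := D.l0
  have l1 := D.l1
  have hpi := pi_pos
  set lam : ℝ := (p : ℝ) / q with hlam
  have h1l : 0 < 1 - lam := by linarith
  set Kp : ℝ := lam * (2 * π) * (1 - lam)⁻¹ with hKp
  have hKp0 : 0 ≤ Kp := by positivity
  set M : ℝ := Kp + 2 * π / (1 - lam) with hM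
  have hM0 : 0 < M := by positivity
  obtain ⟨i, j, hij, hd⟩ := close_return (p := p) (q := q) (a := a) D.hq (ε := ε / M) (by positivity)
  obtain ⟨N, rfl⟩ : ∃ N, j = i + N := ⟨j - i, by omega⟩
  have hN : 0 < N := by omega
  have hN' : (0 : ℝ) < N := by exact_mod_cast hN
  have hN1 : (1 : ℝ) ≤ N := by exact_mod_cast hN
  have hlN : lam ^ N ≤ lam := by
    calc lam ^ N ≤ lam ^ 1 := pow_le_pow_of_le_one l0.le l1.le hN
      _ = lam := pow_one _
  have hlN' : 0 < 1 - lam ^ N := by linarith
  set δ : ℝ := orb p q a (i + N) - orb p q a i with hδ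
  set d : ℝ := δ / (1 - lam ^ N) with hdd
  have hdb : |d| ≤ |δ| / (1 - lam) := by
    rw [hdd, abs_div, abs_of_pos hlN']
    gcongr
  set z : ℕ → ℝ := fun l => orb p q a (i + l) + lam ^ l * d with hz
  have hzN : z N = z 0 := by
    simp only [hz, add_zero, pow_zero, one_mul]
    have : δ = (1 - lam ^ N) * d := by
      rw [hdd]; field_simp
    have h2 : orb p q a (i + N) = orb p q a i + (1 - lam ^ N) * d := by
      rw [← this, hδ]; ring
    rw [h2]; ring
  have hgr : ∀ l, (point (z (l + 1)), point (z l)) ∈ graph p q := by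
    intro l
    rw [graph_iff]
    have h1 := phi_int a D.hq (p := p) (orb p q a (i + l))
    rw [← orb_succ] at h1
    refine ⟨-⌊(p : ℝ) * orb p q a (i + l) - q * a⌋, ?_⟩
    simp only [hz]
    have e : (q : ℝ) * (lam ^ (l + 1) * d) = p * (lam ^ l * d) := by
      rw [pow_succ, hlam]
      field_simp
    rw [show i + (l + 1) = i + l + 1 by ring, mul_add, mul_add, e]
    push_cast
    linarith
  set g : ℕ → graph p q := fun l => ⟨(point (z (l + 1)), point (z l)), hgr l⟩ with hg
  set m : Measure (graph p q) := unif g N with hm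
  have m1 : Measurable (fun z : graph p q => z.1.1) := by fun_prop
  have m2 : Measurable (fun z : graph p q => z.1.2) := by fun_prop
  have hmp : IsProbabilityMeasure m := unif_prob g hN
  set ν : Measure S1 := unif (fun l => point (z l)) N with hν
  have hνp : IsProbabilityMeasure ν := unif_prob _ hN
  have e1 : m.map (fun z => z.1.1) = ν := by
    rw [hm, unif_map g N m1, hν]
    exact unif_shift (fun l => point (z l)) (by simp only [hzN])
  have e2 : m.map (fun z => z.1.2) = ν := by
    rw [hm, unif_map g N m2]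
  refine ⟨ν, ⟨hνp, m, hmp, e1, e2⟩, ?_⟩
  rw [Lin_bary]
  have hsm : StronglyMeasurable (fun z : S1 => Lin θ (z : ℂ)) := by
    have : Continuous (fun z : S1 => LinC θ (z : ℂ)) :=
      (LinC θ).continuous.comp continuous_subtype_val
    exact this.stronglyMeasurable
  have e3 : ∫ w : S1, Lin θ (w : ℂ) ∂ν =
      (N : ℝ)⁻¹ * ∑ l ∈ Finset.range N, ff θ (z (l + 1)) := by
    rw [← e1, hm, unif_map g N m1, unif_integral _ _ hsm]
    simp only [hg, Lin_point]
  rw [e3]
  have h4 : ∀ l ∈ Finset.range N, ff θ (orb p q a (i + l + 1)) - 2 * π * |d| ≤ ff θ (z (l + 1)) := by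
    intro l _
    have h5 := ff_lip θ (orb p q a (i + l + 1)) (z (l + 1))
    have h6 : |orb p q a (i + l + 1) - z (l + 1)| ≤ |d| := by
      simp only [hz]
      rw [show i + (l + 1) = i + l + 1 by ring]
      rw [sub_add_cancel_left, abs_neg, abs_mul, abs_of_nonneg (by positivity)]
      have h7 : lam ^ (l + 1) ≤ 1 := pow_le_one₀ l0.le l1.le
      calc lam ^ (l + 1) * |d| ≤ 1 * |d| := by gcongr
        _ = |d| := one_mul _
    have h8 : 2 * π * |orb p q a (i + l + 1) - z (l + 1)| ≤ 2 * π * |d| := by gcongr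
    have h9 := le_abs_self (ff θ (orb p q a (i + l + 1)) - ff θ (z (l + 1)))
    linarith
  have h10 := Finset.sum_le_sum h4
  rw [Finset.sum_sub_distrib, orb_sum D h0, Finset.sum_const, Finset.card_range, nsmul_eq_mul] at h10
  have h11 : PP p q a θ (orb p q a (i + N)) - PP p q a θ (orb p q a i) ≤ Kp * |δ| :=
    (le_abs_self _).trans (D.psi_lip _ _)
  have h12 : (N : ℝ) * betaVal p q a θ - N * (Kp * |δ| + 2 * π * |d|) ≤
      ∑ l ∈ Finset.range N, ff θ (z (l + 1)) := by
    have h13 : Kp * |δ| ≤ N * (Kp * |δ|) := by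
      have : 0 ≤ Kp * |δ| := by positivity
      nlinarith
    linarith
  have h14 : Kp * |δ| + 2 * π * |d| ≤ M * |δ| := by
    rw [hM, add_mul]
    have : 2 * π * |d| ≤ 2 * π * (|δ| / (1 - lam)) := by gcongr
    have e : 2 * π * (|δ| / (1 - lam)) = 2 * π / (1 - lam) * |δ| := by ring
    linarith
  have h15 : M * |δ| ≤ ε := by
    calc M * |δ| ≤ M * (ε / M) := by gcongr
      _ = ε := by field_simp
  have h16 : (N : ℝ) * (betaVal p q a θ - ε) ≤ ∑ l ∈ Finset.range N, ff θ (z (l + 1)) := by
    have : (N : ℝ) * (Kp * |δ| + 2 * π * |d|) ≤ N * ε := by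
      gcongr
      linarith
    rw [mul_sub]
    linarith
  calc betaVal p q a θ - ε = (N : ℝ)⁻¹ * ((N : ℝ) * (betaVal p q a θ - ε)) := by field_simp
    _ ≤ _ := by gcongr

end

end

end Pool.Agent.H45Sturm
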