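import Pool.Agent.H45Sturm.LemA

/-! The sub-action and its basic estimates. -/

namespace Pool.Agent.H45Sturm

open Set Filter MeasureTheory

noncomputable section

/-- The sub-action. -/
def psi (p q : ℕ) (a : ℝ) (h : ℝ → ℝ) (y : ℝ) : ℝ := ∫ t in (0 : ℝ)..y, gsum p q a h t

/-- The increment of the sub-action over one period. -/
def czero (p q : ℕ) (a : ℝ) (h : ℝ → ℝ) : ℝ := ∫ t in (0 : ℝ)..(1 / (p : ℝ)), gsum p q a h t

/-- Standing assumptions. -/
structure Data (p q : ℕ) (a : ℝ) (f h : ℝ → ℝ) (K C : ℝ) : Prop where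
  hp : 0 < p
  hpq : p < q
  hf : ∀ x, HasDerivAt f (h x) x
  hc : Continuous h
  hK : ∀ x, |h x| ≤ K
  hC : 0 ≤ C
  h1 : ∀ u ∈ Ico a (a + 1 / (q : ℝ)), ∀ v ∈ Ico a (a + 1 / (q : ℝ)), v ≤ u →
    h v - h u ≤ C * (u - v)
  h2 : ∀ u ∈ Ico a (a + 1 / (q : ℝ)), ∀ v ∈ Ico a (a + 1 / (q : ℝ)), u < v →
      h v - h u ≤ C * (1 / (q * (1 + (p : ℝ) / q)) - (v - u))
  per : ∀ x, f (x + 1) = f x

variable {p q : ℕ} {a : ℝ} {f h : ℝ → ℝ} {K C : ℝ}

namespace Data

variable (D : Data p q a f h K C)

include D

lemma hq : 0 < q := by have := D.hpq; omega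

lemma hq' : (0 : ℝ) < q := by exact_mod_cast D.hq

lemma hp' : (0 : ℝ) < p := by exact_mod_cast D.hp

lemma l0 : (0 : ℝ) < (p : ℝ) / q := lam_pos D.hp D.hpq

lemma l1 : (p : ℝ) / q < 1 := lam_lt D.hp D.hpq

lemma int (u v : ℝ) : IntervalIntegrable (gsum p q a h) volume u v :=
  gsum_intervalIntegrable D.hp D.hpq D.hc.measurable D.hK u v

lemma psi_sub (x y : ℝ) : psi p q a h y - psi p q a h x = ∫ t in x..y, gsum p q a h t := by
  unfold psi
  rw [intervalIntegral.integral_interval_sub_left (D.int _ _) (D.int _ _)]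

lemma psi_lip (x y : ℝ) : |psi p q a h y - psi p q a h x| ≤
    (p : ℝ) / q * K * (1 - (p : ℝ) / q)⁻¹ * |y - x| := by
  rw [D.psi_sub]
  have := intervalIntegral.norm_integral_le_of_norm_le_const (a := x) (b := y)
    (f := gsum p q a h) (C := (p : ℝ) / q * K * (1 - (p : ℝ) / q)⁻¹)
    (fun t _ => by rw [Real.norm_eq_abs]; exact gsum_bound D.hp D.hpq D.hK t)
  rwa [Real.norm_eq_abs] at this

lemma psi_cont : Continuous (psi p q a h) := by
  have hK0 : 0 ≤ K := (abs_nonneg _).trans (D.hK 0)
  have h1 : 0 < 1 - (p : ℝ) / q := by have := D.l1; linarith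
  have l0 := D.l0
  refine (LipschitzWith.of_dist_le_mul (K := Real.toNNReal ((p : ℝ) / q * K *
    (1 - (p : ℝ) / q)⁻¹)) ?_).continuous
  intro x y
  rw [Real.dist_eq, Real.dist_eq, Real.coe_toNNReal _ (by positivity)]
  exact D.psi_lip y x

lemma gper : Function.Periodic (gsum p q a h) (1 / (p : ℝ)) := by
  intro y
  have := gsum_periodic (q := q) (a := a) (h := h) D.hp y 1
  rwa [Int.cast_one] at this

lemma int_period (y : ℝ) : ∫ t in y..(y + 1 / (p : ℝ)), gsum p q a h t = czero p q a h := by
  have := D.gper.intervalIntegral_add_eq y 0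
  rw [this, zero_add]
  rfl

lemma psi_add_period (y : ℝ) : psi p q a h (y + 1 / (p : ℝ)) = psi p q a h y + czero p q a h := by
  have := D.psi_sub y (y + 1 / (p : ℝ))
  rw [D.int_period] at this
  linarith

lemma psi_add_int (h0 : czero p q a h = 0) (y : ℝ) (j : ℤ) :
    psi p q a h (y + j / p) = psi p q a h y := by
  have hper : Function.Periodic (psi p q a h) (1 / (p : ℝ)) := by
    intro y; rw [D.psi_add_period, h0, add_zero]
  have := hper.int_mul j y
  rw [mul_one_div] at this
  exact this

lemma psi_add_one (h0 : czero p q a h = 0) (y : ℝ) :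
    psi p q a h (y + 1) = psi p q a h y := by
  have := D.psi_add_int h0 y p
  have e : (((p : ℕ) : ℤ) : ℝ) / (p : ℝ) = 1 := by
    have := D.hp'
    push_cast
    field_simp
  rwa [e] at this

/-- The functional equation on the fundamental interval. -/
lemma psi_key {v : ℝ} (hv0 : 0 ≤ v) (hv : v ≤ 1 / p) :
    psi p q a h ((q : ℝ) * a / p + v) - psi p q a h ((q : ℝ) * a / p) =
      (f (a + (p : ℝ) / q * v) + psi p q a h (a + (p : ℝ) / q * v)) - (f a + psi p q a h a) := by
  have hp' := D.hp'
  have hq' := D.hq'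
  rw [D.psi_sub]
  set b : ℝ := (q : ℝ) * a / p with hb
  have hab : (p : ℝ) / q * b = a := by rw [hb]; field_simp
  have e1 : ∫ t in b..(b + v), gsum p q a h t =
      ∫ t in b..(b + v), (p : ℝ) / q * (h ((p : ℝ) / q * t) + gsum p q a h ((p : ℝ) / q * t)) := by
    apply intervalIntegral.integral_congr_ae
    have : ∀ᵐ t : ℝ, t ≠ b + 1 / p := by
      simp [ae_iff, measure_singleton]
    filter_upwards [this] with t ht ht2
    rw [uIoc_of_le (by linarith)] at ht2
    have ht3 : t - b < 1 / p := by
      rcases lt_or_eq_of_le (show t - b ≤ 1 / p by linarith [ht2.2]) with h | h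
      · exact h
      · exact absurd (by linarith) ht
    have hphi : phi p q a t = (p : ℝ) / q * t := by
      have := phi_lin a (p := p) (q := q) D.hp D.hq (v := t - b) (by linarith [ht2.1]) ht3
      rw [← hb] at this
      rw [show b + (t - b) = t by ring] at this
      rw [this]
      have : a = (p : ℝ) / q * b := hab.symm
      nlinarith
    rw [gsum_eq (a := a) D.hp D.hpq D.hK t, hphi]
  rw [e1, intervalIntegral.integral_const_mul]
  rw [intervalIntegral.mul_integral_comp_mul_left (f := fun z => h z + gsum p q a h z)]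
  have e2 : (p : ℝ) / q * (b + v) = a + (p : ℝ) / q * v := by rw [mul_add, hab]
  rw [hab, e2]
  rw [intervalIntegral.integral_add (D.hc.intervalIntegrable _ _) (D.int _ _)]
  rw [← D.psi_sub]
  rw [intervalIntegral.integral_eq_sub_of_hasDerivAt (fun x _ => D.hf x)
    (D.hc.intervalIntegrable _ _)]
  ring

/-- The period increment in terms of `H`. -/
lemma czero_eq : czero p q a h =
    (f (a + 1 / q) + psi p q a h (a + 1 / q)) - (f a + psi p q a h a) := by
  have hp' := D.hp'
  have hq' := D.hq'
  have := D.psi_key (v := 1 / p) (by positivity) le_rfl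
  rw [D.psi_sub, D.int_period] at this
  have e : (p : ℝ) / q * (1 / p) = 1 / q := by field_simp
  rw [e] at this
  exact this

/-- The functional equation. -/
lemma psi_fun (h0 : czero p q a h = 0) (y : ℝ) :
    psi p q a h y = psi p q a h ((q : ℝ) * a / p) - (f a + psi p q a h a) +
      (f (phi p q a y) + psi p q a h (phi p q a y)) := by
  have hp' := D.hp'
  have hq' := D.hq'
  set v : ℝ := Int.fract ((p : ℝ) * y - q * a) / p with hv
  have hv0 : 0 ≤ v := by
    have := Int.fract_nonneg ((p : ℝ) * y - q * a)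
    positivity
  have hv1 : v < 1 / p := by
    have := Int.fract_lt_one ((p : ℝ) * y - q * a)
    rw [hv]; gcongr
  have ey : y = (q : ℝ) * a / p + v + (⌊(p : ℝ) * y - q * a⌋ : ℤ) / p := by
    have := Int.fract_add_floor ((p : ℝ) * y - q * a)
    calc y = ((q : ℝ) * a + Int.fract ((p : ℝ) * y - q * a) +
          (⌊(p : ℝ) * y - q * a⌋ : ℤ)) / p := by
          rw [eq_div_iff hp'.ne']; linarith
      _ = _ := by rw [hv]; ring
  have e1 : psi p q a h y = psi p q a h ((q : ℝ) * a / p + v) := by
    conv_lhs => rw [ey]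
    rw [D.psi_add_int h0]
  have e2 : phi p q a y = a + (p : ℝ) / q * v := by
    unfold phi
    rw [hv]
    field_simp
  have := D.psi_key hv0 hv1.le
  rw [e1, e2]
  linarith

lemma gsum_le (x t : ℝ) :
    gsum p q a h (x + t) - gsum p q a h x ≤
      C * ((p : ℝ) / q) / (q * (1 - ((p : ℝ) / q) ^ 2)) * Int.fract (-(p * t)) :=
  gsum_diff_le D.hp D.hpq D.hK D.hC D.h1 D.h2 x t

lemma gsum_semi {x r : ℝ} (hr : 0 ≤ r) :
    gsum p q a h x - gsum p q a h (x + r) ≤
      C * ((p : ℝ) / q) ^ 2 / (1 - ((p : ℝ) / q) ^ 2) * r := by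
  have l0 := D.l0
  have l1 := D.l1
  have hp' := D.hp'
  have hq' := D.hq'
  have := D.gsum_le (x + r) (-r)
  rw [show x + r + -r = x by ring] at this
  have hL2 : 0 < 1 - ((p : ℝ) / q) ^ 2 := by nlinarith
  have hC := D.hC
  have hle : Int.fract (-((p : ℝ) * -r)) ≤ p * r := by
    rw [show -((p : ℝ) * -r) = p * r by ring]
    have h0 : 0 ≤ (p : ℝ) * r := by positivity
    have := Int.fract_add_floor ((p : ℝ) * r)
    have h2 : (0 : ℝ) ≤ ⌊(p : ℝ) * r⌋ := by exact_mod_cast Int.floor_nonneg.2 h0
    linarith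
  calc _ ≤ _ := this
    _ ≤ C * ((p : ℝ) / q) / (q * (1 - ((p : ℝ) / q) ^ 2)) * (p * r) := by gcongr
    _ = _ := by field_simp

/-- Upper bound for integrals of the derivative over intervals. -/
lemma int_le {y L : ℝ} (hL0 : 0 ≤ L) (hL : L ≤ 1 / p) :
    ∫ t in y..(y + L), gsum p q a h t ≤ L * p * czero p q a h +
      C * ((p : ℝ) / q) ^ 2 / (1 - ((p : ℝ) / q) ^ 2) / 2 * L * (1 / p - L) := by
  have hp' := D.hp'
  set M : ℝ := C * ((p : ℝ) / q) ^ 2 / (1 - ((p : ℝ) / q) ^ 2) with hM
  set γ : ℝ := gsum p q a h (y + L) with hγ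
  set P : ℝ := 1 / (p : ℝ) with hP
  have hP0 : 0 < P := by rw [hP]; positivity
  have e1 : ∫ t in y..(y + L), gsum p q a h t ≤ ∫ t in y..(y + L), (γ + M * (y + L - t)) := by
    apply intervalIntegral.integral_mono_on (by linarith) (D.int _ _)
    · exact (by fun_prop : Continuous fun t : ℝ => γ + M * (y + L - t)).intervalIntegrable _ _
    · intro t ht
      have := D.gsum_semi (x := t) (r := y + L - t) (by linarith [ht.2])
      rw [show t + (y + L - t) = y + L by ring] at this
      linarith
  have e2 : ∫ t in y..(y + L), (γ + M * (y + L - t)) = γ * L + M * L ^ 2 / 2 := by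
    have hd : ∀ t ∈ Set.uIcc y (y + L), HasDerivAt
        (fun t : ℝ => γ * t - M * (y + L - t) ^ 2 / 2) (γ + M * (y + L - t)) t := by
      intro t _
      have h1 : HasDerivAt (fun t : ℝ => y + L - t) (-1) t := by
        simpa using (hasDerivAt_id t).const_sub (y + L)
      have h2 := ((hasDerivAt_id t).const_mul γ).sub (((h1.pow 2).const_mul M).div_const 2)
      refine h2.congr_deriv ?_
      simp only [Nat.cast_ofNat]
      ring
    rw [intervalIntegral.integral_eq_sub_of_hasDerivAt hd
      ((by fun_prop : Continuous fun t : ℝ => γ + M * (y + L - t)).intervalIntegrable _ _)]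
    ring
  have e3 : ∫ t in (y + L)..(y + P), (γ - M * (t - (y + L))) ≤
      ∫ t in (y + L)..(y + P), gsum p q a h t := by
    apply intervalIntegral.integral_mono_on (by linarith) _ (D.int _ _)
    · intro t ht
      have := D.gsum_semi (x := y + L) (r := t - (y + L)) (by linarith [ht.1])
      rw [show y + L + (t - (y + L)) = t by ring] at this
      linarith
    · exact (by fun_prop : Continuous fun t : ℝ => γ - M * (t - (y + L))).intervalIntegrable _ _
  have e4 : ∫ t in (y + L)..(y + P), (γ - M * (t - (y + L))) =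
      γ * (P - L) - M * (P - L) ^ 2 / 2 := by
    have hd : ∀ t ∈ Set.uIcc (y + L) (y + P), HasDerivAt
        (fun t : ℝ => γ * t - M * (t - (y + L)) ^ 2 / 2) (γ - M * (t - (y + L))) t := by
      intro t _
      have h1 : HasDerivAt (fun t : ℝ => t - (y + L)) 1 t := by
        simpa using (hasDerivAt_id t).sub_const (y + L)
      have h2 := ((hasDerivAt_id t).const_mul γ).sub (((h1.pow 2).const_mul M).div_const 2)
      refine h2.congr_deriv ?_
      simp only [Nat.cast_ofNat]
      ring
    rw [intervalIntegral.integral_eq_sub_of_hasDerivAt hd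
      ((by fun_prop : Continuous fun t : ℝ => γ - M * (t - (y + L))).intervalIntegrable _ _)]
    ring
  have e5 : (∫ t in y..(y + L), gsum p q a h t) + ∫ t in (y + L)..(y + P), gsum p q a h t =
      czero p q a h := by
    rw [intervalIntegral.integral_add_adjacent_intervals (D.int _ _) (D.int _ _), D.int_period]
  set X := ∫ t in y..(y + L), gsum p q a h t with hX
  set Y := ∫ t in (y + L)..(y + P), gsum p q a h t with hY
  have f1 : X ≤ γ * L + M * L ^ 2 / 2 := by linarith
  have f2 : γ * (P - L) - M * (P - L) ^ 2 / 2 ≤ Y := by linarith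
  have f3 : (P - L) * X ≤ (P - L) * (γ * L + M * L ^ 2 / 2) :=
    mul_le_mul_of_nonneg_left f1 (by linarith)
  have f4 : L * (γ * (P - L) - M * (P - L) ^ 2 / 2) ≤ L * Y :=
    mul_le_mul_of_nonneg_left f2 hL0
  have f5 : P * X ≤ L * czero p q a h + M / 2 * L * (P - L) * P := by
    have : Y = czero p q a h - X := by linarith
    rw [this] at f4
    nlinarith
  have f6 : P * X ≤ P * (L * p * czero p q a h + M / 2 * L * (P - L)) := by
    have : P * p = 1 := by rw [hP]; field_simp
    calc P * X ≤ L * czero p q a h + M / 2 * L * (P - L) * P := f5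
      _ = (P * p) * L * czero p q a h + M / 2 * L * (P - L) * P := by rw [this]; ring
      _ = _ := by ring
  exact le_of_mul_le_mul_left f6 hP0

lemma le_int {y L : ℝ} (hL0 : 0 ≤ L) (hL : L ≤ 1 / p) :
    L * p * czero p q a h -
      C * ((p : ℝ) / q) ^ 2 / (1 - ((p : ℝ) / q) ^ 2) / 2 * L * (1 / p - L) ≤
        ∫ t in y..(y + L), gsum p q a h t := by
  have hp' := D.hp'
  have e5 : (∫ t in y..(y + L), gsum p q a h t) + ∫ t in (y + L)..(y + 1 / p), gsum p q a h t =
      czero p q a h := by
    rw [intervalIntegral.integral_add_adjacent_intervals (D.int _ _) (D.int _ _), D.int_period]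
  have := D.int_le (y := y + L) (L := 1 / p - L) (by linarith) (by linarith)
  rw [show y + L + (1 / (p : ℝ) - L) = y + 1 / p by ring] at this
  have e6 : (1 / (p : ℝ) - L) * p = 1 - L * p := by field_simp
  rw [e6] at this
  rw [show (1 : ℝ) / p - (1 / p - L) = L by ring] at this
  nlinarith

lemma psi_diff (y1 y2 : ℝ) (h12 : y1 ≤ y2) :
    (psi p q a h (y2 + 1 / q) - psi p q a h y2) - (psi p q a h (y1 + 1 / q) - psi p q a h y1) ≤
      C * ((p : ℝ) / q) / (q * (1 + (p : ℝ) / q)) * (y2 - y1) := by
  have l0 := D.l0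
  have l1 := D.l1
  have hp' := D.hp'
  have hq' := D.hq'
  have e0 : (psi p q a h (y2 + 1 / q) - psi p q a h y2) -
      (psi p q a h (y1 + 1 / q) - psi p q a h y1) =
      ∫ t in y1..y2, (gsum p q a h (t + 1 / q) - gsum p q a h t) := by
    have e1 := D.psi_sub y1 y2
    have e2 := D.psi_sub (y1 + 1 / q) (y2 + 1 / q)
    rw [← intervalIntegral.integral_comp_add_right] at e2
    rw [intervalIntegral.integral_sub _ (D.int _ _)]
    · linarith
    · have := (D.int (y1 + 1 / q) (y2 + 1 / q)).comp_add_right (1 / q : ℝ)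
      simpa using this
  rw [e0]
  have hi : IntervalIntegrable (fun t => gsum p q a h (t + 1 / q) - gsum p q a h t) volume y1 y2 := by
    refine IntervalIntegrable.sub ?_ (D.int _ _)
    have := (D.int (y1 + 1 / q) (y2 + 1 / q)).comp_add_right (1 / q : ℝ)
    simpa using this
  calc ∫ t in y1..y2, (gsum p q a h (t + 1 / q) - gsum p q a h t)
      ≤ ∫ _t in y1..y2, C * ((p : ℝ) / q) / (q * (1 + (p : ℝ) / q)) := by
        apply intervalIntegral.integral_mono_on h12 hi intervalIntegrable_const
        intro t _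
        have := D.gsum_le t (1 / q)
        have ef : Int.fract (-((p : ℝ) * (1 / q))) = 1 - (p : ℝ) / q := by
          rw [mul_one_div]
          exact fract_neg_of_pos l0 l1.le
        rw [ef] at this
        refine this.trans (le_of_eq ?_)
        have h1L : (1 - (p : ℝ) / q) ≠ 0 := by
          have : 0 < 1 - (p : ℝ) / q := by linarith
          exact this.ne'
        have h2L : (1 + (p : ℝ) / q) ≠ 0 := by positivity
        have : 1 - ((p : ℝ) / q) ^ 2 = (1 - (p : ℝ) / q) * (1 + (p : ℝ) / q) := by ring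
        rw [this]
        set L : ℝ := (p : ℝ) / q
        field_simp
    _ = _ := by
        rw [intervalIntegral.integral_const, smul_eq_mul]
        ring

end Data

end

end Pool.Agent.H45Sturm
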