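import Pool.Agent.H45Sturm.Circle

/-! The transport inequality for invariant measures. -/

namespace Pool.Agent.H45Sturm

open Real Set Filter MeasureTheory Topology

noncomputable section

variable {p q : ℕ} {a θ : ℝ}

lemma coord_abs (z : S1) : |coord z| ≤ 1 / 2 := by
  unfold coord
  have h := Complex.abs_arg_le_pi (z : ℂ)
  rw [abs_div, abs_of_pos (by positivity : (0 : ℝ) < 2 * π)]
  rw [div_le_iff₀ (by positivity)]
  linarith

/-- The transport defect. -/
def defect (p q : ℕ) (a θ : ℝ) (w : S1 × S1) : ℝ :=
  PP p q a θ (coord w.2) + betaVal p q a θ - Hf p q a θ (coord w.1)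

section

variable (D : Data p q a (ff θ) (hh θ) (2 * π) (4 * π ^ 2))
  (h0 : czero p q a (hh θ) = 0)

include D

lemma G_bound (z : S1) : |PP p q a θ (coord z)| ≤
    (p : ℝ) / q * (2 * π) * (1 - (p : ℝ) / q)⁻¹ * (1 / 2) := by
  have h := D.psi_lip 0 (coord z)
  have e : psi p q a (hh θ) 0 = 0 := by unfold psi; simp
  rw [e, sub_zero, sub_zero] at h
  refine h.trans ?_
  have l0 := D.l0
  have l1 : 0 < 1 - (p : ℝ) / q := by have := D.l1; linarith
  have := coord_abs z
  have hpi := pi_pos
  gcongr

lemma G_meas : Measurable (fun z : S1 => PP p q a θ (coord z)) :=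
  D.psi_cont.measurable.comp measurable_coord

lemma G_int (μ : Measure S1) [IsFiniteMeasure μ] :
    Integrable (fun z : S1 => PP p q a θ (coord z)) μ := by
  refine Integrable.of_bound (C := (p : ℝ) / q * (2 * π) * (1 - (p : ℝ) / q)⁻¹ * (1 / 2))
    (G_meas D).aestronglyMeasurable ?_
  exact Eventually.of_forall fun z => by
    rw [Real.norm_eq_abs]; exact G_bound D z

omit D in
lemma Lin_coord (z : S1) : Lin θ z = ff θ (coord z) := by
  rw [← Lin_point, point_coord]

omit D in
lemma Lin_int (μ : Measure S1) [IsFiniteMeasure μ] :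
    Integrable (fun z : S1 => Lin θ (z : ℂ)) μ := by
  have := (LinC θ).integrable_comp (integrable_coe μ)
  simpa only [LinC_apply] using this

lemma integral_defect {μ : Measure S1} [IsProbabilityMeasure μ] {m : Measure (graph p q)}
    [IsProbabilityMeasure m] (h1 : m.map (fun z => z.1.1) = μ)
    (h2 : m.map (fun z => z.1.2) = μ) :
    Integrable (fun w : graph p q => defect p q a θ w.1) m ∧
    ∫ w, defect p q a θ w.1 ∂m = betaVal p q a θ - Lin θ (barycentre μ) := by
  have m1 : Measurable (fun z : graph p q => z.1.1) := by fun_prop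
  have m2 : Measurable (fun z : graph p q => z.1.2) := by fun_prop
  have i2 : Integrable (fun w : graph p q => PP p q a θ (coord w.1.2)) m := by
    have := G_int D μ
    rw [← h2] at this
    exact this.comp_measurable m2
  have i1 : Integrable (fun w : graph p q => PP p q a θ (coord w.1.1)) m := by
    have := G_int D μ
    rw [← h1] at this
    exact this.comp_measurable m1
  have i3 : Integrable (fun w : graph p q => Lin θ (w.1.1 : ℂ)) m := by
    have := Lin_int (θ := θ) μ
    rw [← h1] at this
    exact this.comp_measurable m1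
  have e2 : ∫ w : graph p q, PP p q a θ (coord w.1.2) ∂m = ∫ z, PP p q a θ (coord z) ∂μ := by
    rw [← h2, integral_map m2.aemeasurable (G_meas D).aestronglyMeasurable]
  have e1 : ∫ w : graph p q, PP p q a θ (coord w.1.1) ∂m = ∫ z, PP p q a θ (coord z) ∂μ := by
    rw [← h1, integral_map m1.aemeasurable (G_meas D).aestronglyMeasurable]
  have e3 : ∫ w : graph p q, Lin θ (w.1.1 : ℂ) ∂m = Lin θ (barycentre μ) := by
    rw [Lin_bary, ← h1, integral_map m1.aemeasurable]
    rw [h1]
    exact (Lin_int (θ := θ) μ).aestronglyMeasurable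
  have ed : (fun w : graph p q => defect p q a θ w.1) = fun w : graph p q =>
      (PP p q a θ (coord w.1.2) + betaVal p q a θ) -
        (Lin θ (w.1.1 : ℂ) + PP p q a θ (coord w.1.1)) := by
    funext w
    unfold defect Hf
    rw [Lin_coord]
  have ic : Integrable (fun _ : graph p q => betaVal p q a θ) m := integrable_const _
  have j1 : Integrable (fun w : graph p q => PP p q a θ (coord w.1.2) + betaVal p q a θ) m :=
    i2.add ic
  have j2 : Integrable (fun w : graph p q => Lin θ (w.1.1 : ℂ) + PP p q a θ (coord w.1.1)) m :=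
    i3.add i1
  constructor
  · rw [ed]
    exact j1.sub j2
  · rw [ed, integral_sub j1 j2, integral_add i2 ic, integral_add i3 i1, e1, e2, e3,
      integral_const]
    simp only [probReal_univ, smul_eq_mul, one_mul]
    ring

include h0

lemma defect_nonneg (hb : |bb q a θ| ≤ bmax q) (w : graph p q) :
    0 ≤ defect p q a θ w.1 ∧ (defect p q a θ w.1 = 0 → w.1.1 ∈ arc q a) := by
  have hw : (point (coord w.1.1), point (coord w.1.2)) ∈ graph p q := by
    rw [point_coord, point_coord]; exact w.2
  have := Hf_le D h0 hb (graph_iff.1 hw)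
  unfold defect
  refine ⟨by linarith [this.1], fun h => ?_⟩
  have h3 := this.2 (by linarith)
  rwa [point_coord] at h3

lemma defect_arc (w : graph p q) (h : w.1.1 ∈ arc q a) : defect p q a θ w.1 = 0 := by
  obtain ⟨x, hx, hxw⟩ := h
  have hw : (point x, point (coord w.1.2)) ∈ graph p q := by
    rw [hxw, point_coord]; exact w.2
  have h2 := Hf_eq_of_arc D h0 hx (graph_iff.1 hw)
  have h3 : Hf p q a θ (coord w.1.1) = Hf p q a θ x := by
    have : point (coord w.1.1) = point x := by rw [point_coord, hxw]
    obtain ⟨n, hn⟩ := point_eq_iff.1 this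
    rw [hn, Hf_add_int D h0]
  unfold defect
  linarith

end

lemma arc_compact (q : ℕ) (a : ℝ) : IsCompact (arc q a) :=
  isCompact_Icc.image point_continuous

/-- The transport theorem. -/
theorem transport (D : Data p q a (ff θ) (hh θ) (2 * π) (4 * π ^ 2))
    (h0 : czero p q a (hh θ) = 0) (hb : |bb q a θ| ≤ bmax q) {μ : Measure S1}
    (hμ : Invariant p q μ) :
    Lin θ (barycentre μ) ≤ betaVal p q a θ ∧
      (Lin θ (barycentre μ) = betaVal p q a θ ↔ μ.support ⊆ arc q a) := by
  obtain ⟨hP, m, hm, h1, h2⟩ := hμ
  obtain ⟨hi, he⟩ := integral_defect D h1 h2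
  have m1 : Measurable (fun z : graph p q => z.1.1) := by fun_prop
  have hn : ∀ w : graph p q, 0 ≤ defect p q a θ w.1 := fun w => (defect_nonneg D h0 hb w).1
  have hge : 0 ≤ ∫ w : graph p q, defect p q a θ w.1 ∂m := integral_nonneg hn
  have hcl : IsClosed (arc q a) := (arc_compact q a).isClosed
  refine ⟨by linarith, ?_, ?_⟩
  · intro heq
    have hz : ∫ w : graph p q, defect p q a θ w.1 ∂m = 0 := by linarith
    rw [integral_eq_zero_iff_of_nonneg hn hi] at hz
    apply Measure.support_subset_of_isClosed hcl
    rw [← h1, mem_ae_map_iff m1.aemeasurable hcl.measurableSet]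
    filter_upwards [hz] with w hw
    exact (defect_nonneg D h0 hb w).2 hw
  · intro hs
    have h3 : arc q a ∈ ae μ := mem_of_superset Measure.support_mem_ae hs
    rw [← h1, mem_ae_map_iff m1.aemeasurable hcl.measurableSet] at h3
    have hz : ∫ w : graph p q, defect p q a θ w.1 ∂m = 0 := by
      rw [integral_eq_zero_iff_of_nonneg hn hi]
      filter_upwards [h3] with w hw
      exact defect_arc D h0 w hw
    linarith

end

end Pool.Agent.H45Sturm
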